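import Mathlib

/-! HR10: group theory. -/

set_option autoImplicit false

namespace Pool.Agent.H14.HR

/-- `G` has a solvable subgroup of finite index. -/
def VS (G : Type*) [Group G] : Prop := ∃ H : Subgroup G, H.FiniteIndex ∧ Group.IsSolvable H

theorem quot_vs {G : Type*} [Group G] (K : Subgroup G) [K.Normal] (G' : Subgroup G)
    [G'.FiniteIndex] (n : ℕ) (h : (derivedSeries G' n).map G'.subtype ≤ K) : VS (G ⧸ K) := by
  refine ⟨G'.map (QuotientGroup.mk' K), ⟨?_⟩, ⟨n, ?_⟩⟩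
  · have h1 := Subgroup.index_map_dvd G' (QuotientGroup.mk'_surjective K)
    exact ne_zero_of_dvd_ne_zero Subgroup.FiniteIndex.index_ne_zero h1
  · have h1 := (QuotientGroup.mk' K).subgroupMap_surjective G'
    rw [← map_derivedSeries_eq h1, Subgroup.map_eq_bot_iff]
    intro x hx
    rw [MonoidHom.mem_ker]
    apply Subtype.ext
    exact (QuotientGroup.eq_one_iff (x : G)).2 (h ⟨x, hx, rfl⟩)

theorem sub_vs {G : Type*} [Group G] {K L : Subgroup G} (h : K ≤ L) (hL : VS L) : VS K := by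
  obtain ⟨H, hH1, hH2⟩ := hL
  refine ⟨H.comap (Subgroup.inclusion h), ⟨?_⟩, ?_⟩
  · rw [Subgroup.index_comap]
    exact (Subgroup.instFiniteIndex_subgroupOf H (Subgroup.inclusion h).range).index_ne_zero
  · have h1 : Function.Injective ((Subgroup.inclusion h).subgroupComap H) := by
      intro x y hxy
      apply Subtype.ext
      apply Subgroup.inclusion_injective h
      exact congrArg Subtype.val hxy
    exact Group.isSolvable_of_isSolvable_injective h1

private theorem Grp_le {G : Type*} [Group G] {S T : Subgroup G} (h : S ≤ T)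
    (hT : Group.IsSolvable T) : Group.IsSolvable S :=
  Group.isSolvable_of_isSolvable_injective (Subgroup.inclusion_injective h)

private theorem Grp_map {G G' : Type*} [Group G] [Group G'] (f : G →* G') (S : Subgroup G)
    (hS : Group.IsSolvable S) : Group.IsSolvable (S.map f) :=
  Group.isSolvable_of_surjective (f.subgroupMap_surjective S)

private theorem Grp_sup {G : Type*} [Group G] (S T : Subgroup G) [S.Normal]
    (hS : Group.IsSolvable S) (hT : Group.IsSolvable T) : Group.IsSolvable ↥(S ⊔ T) := by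
  have hQ : Group.IsSolvable (T.map (QuotientGroup.mk' S)) := Grp_map _ _ hT
  have hmap : (S ⊔ T).map (QuotientGroup.mk' S) = T.map (QuotientGroup.mk' S) := by
    rw [Subgroup.map_sup, QuotientGroup.map_mk'_self, bot_sup_eq]
  have hmem : ∀ x : ↥(S ⊔ T), QuotientGroup.mk' S (x : G) ∈ T.map (QuotientGroup.mk' S) := by
    intro x
    rw [← hmap]
    exact ⟨x, x.2, rfl⟩
  let g : ↥(S ⊔ T) →* ↥(T.map (QuotientGroup.mk' S)) :=
    ((QuotientGroup.mk' S).comp (S ⊔ T).subtype).codRestrict _ hmem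
  refine Group.isSolvable_of_ker_le_range
    (Subgroup.inclusion (le_sup_left : S ≤ S ⊔ T)) g ?_
  intro x hx
  rw [MonoidHom.mem_ker] at hx
  have h1 : QuotientGroup.mk' S (x : G) = 1 := congrArg Subtype.val hx
  exact ⟨⟨x, (QuotientGroup.eq_one_iff (x : G)).1 h1⟩, rfl⟩

/-- A virtually solvable group has a largest normal solvable subgroup of finite index. -/
private theorem Grp_max {G : Type*} [Group G] (hG : VS G) :
    ∃ S : Subgroup G, S.Normal ∧ S.FiniteIndex ∧ Group.IsSolvable S ∧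
      ∀ T : Subgroup G, T.Normal → Group.IsSolvable T → T ≤ S := by
  classical
  obtain ⟨H, hH1, hH2⟩ := hG
  have hP : ∃ m : ℕ, ∃ S : Subgroup G, S.Normal ∧ S.FiniteIndex ∧ Group.IsSolvable S ∧
      S.index = m :=
    ⟨_, H.normalCore, inferInstance, inferInstance, Grp_le (Subgroup.normalCore_le H) hH2, rfl⟩
  obtain ⟨S, h1, h2, h3, h4⟩ := Nat.find_spec hP
  refine ⟨S, h1, h2, h3, ?_⟩
  intro T hT1 hT2
  by_contra hcon
  have hlt : S < S ⊔ T := by
    refine lt_of_le_of_ne le_sup_left ?_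
    intro he
    apply hcon
    rw [he]
    exact le_sup_right
  have h5 := Subgroup.index_strictAnti hlt
  have h6 : (S ⊔ T).FiniteIndex := Subgroup.finiteIndex_of_le (le_sup_left : S ≤ S ⊔ T)
  have h7 := Nat.find_min' hP ⟨S ⊔ T, Subgroup.sup_normal S T, h6, Grp_sup S T h3 hT2, rfl⟩
  omega

theorem ext_vs {G : Type*} [Group G] (K : Subgroup G) [K.Normal] (hK : VS K)
    (hQ : VS (G ⧸ K)) : VS G := by
  obtain ⟨S, hS1, hS2, hS3, hS4⟩ := Grp_max hK
  obtain ⟨H₁, hH1, hH2⟩ := hQ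
  obtain ⟨S', hS'⟩ : ∃ S' : Subgroup G, S' = S.map K.subtype := ⟨_, rfl⟩
  have hS'K : S' ≤ K := by
    rw [hS']
    rintro x ⟨y, -, rfl⟩
    exact y.2
  have hS's : Group.IsSolvable S' := by
    rw [hS']
    exact Grp_map _ _ hS3
  -- `S'` is normal in `G`
  have hS'n : S'.Normal := by
    refine ⟨fun x hx g => ?_⟩
    rw [hS'] at hx ⊢
    obtain ⟨s, hs, rfl⟩ := hx
    let φ : MulAut K := MulAut.conjNormal g
    have hT1 : (S.map φ.toMonoidHom).Normal := hS1.map _ φ.surjective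
    have hT2 := hS4 _ hT1 (Grp_map _ _ hS3)
    have hT3 : φ s ∈ S := hT2 ⟨s, hs, rfl⟩
    refine ⟨φ s, hT3, ?_⟩
    exact MulAut.conjNormal_apply g s
  obtain ⟨Kb, hKb⟩ : ∃ Kb : Subgroup (G ⧸ S'), Kb = K.map (QuotientGroup.mk' S') := ⟨_, rfl⟩
  have hKbn : Kb.Normal := by
    rw [hKb]
    exact Subgroup.Normal.map inferInstance _ (QuotientGroup.mk'_surjective S')
  have hKbf : Finite Kb := by
    rw [hKb]
    have hl : ∀ x ∈ S, (QuotientGroup.mk' S').subgroupMap K x = 1 := by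
      intro x hx
      apply Subtype.ext
      refine (QuotientGroup.eq_one_iff (x : G)).2 ?_
      rw [hS']
      exact ⟨x, hx, rfl⟩
    refine Finite.of_surjective (QuotientGroup.lift S ((QuotientGroup.mk' S').subgroupMap K) hl) ?_
    intro y
    obtain ⟨x, hx⟩ := (QuotientGroup.mk' S').subgroupMap_surjective K y
    exact ⟨QuotientGroup.mk' S x, hx⟩
  obtain ⟨C, hC⟩ : ∃ C : Subgroup (G ⧸ S'),
      C = (MulAut.conjNormal : (G ⧸ S') →* MulAut Kb).ker := ⟨_, rfl⟩
  have hCf : C.FiniteIndex := by rw [hC]; infer_instance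
  have hCc : ∀ x ∈ C, ∀ y ∈ Kb, x * y = y * x := by
    intro x hx y hy
    rw [hC, MonoidHom.mem_ker] at hx
    have h2 : (MulAut.conjNormal x : MulAut Kb) ⟨y, hy⟩ = ⟨y, hy⟩ := by
      rw [hx]; rfl
    have h3 := congrArg Subtype.val h2
    rw [MulAut.conjNormal_apply] at h3
    simp only at h3
    rw [mul_inv_eq_iff_eq_mul] at h3
    exact h3
  obtain ⟨E, hE⟩ : ∃ E : Subgroup G,
      E = C.comap (QuotientGroup.mk' S') ⊓ H₁.comap (QuotientGroup.mk' K) := ⟨_, rfl⟩
  have hEf : E.FiniteIndex := by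
    have h1 : (C.comap (QuotientGroup.mk' S')).FiniteIndex :=
      ⟨by rw [Subgroup.index_comap_of_surjective _ (QuotientGroup.mk'_surjective S')]
          exact hCf.index_ne_zero⟩
    have h2 : (H₁.comap (QuotientGroup.mk' K)).FiniteIndex :=
      ⟨by rw [Subgroup.index_comap_of_surjective _ (QuotientGroup.mk'_surjective K)]
          exact hH1.index_ne_zero⟩
    rw [hE]
    infer_instance
  have hE1 : ∀ x ∈ E, QuotientGroup.mk' S' x ∈ C := by
    intro x hx
    rw [hE] at hx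
    exact hx.1
  have hE2 : ∀ x ∈ E, QuotientGroup.mk' K x ∈ H₁ := by
    intro x hx
    rw [hE] at hx
    exact hx.2
  refine ⟨E, hEf, ?_⟩
  -- `E ⊓ K` is solvable
  have hEK : Group.IsSolvable ↥(E ⊓ K) := by
    have hab : Group.IsSolvable ↥(C ⊓ Kb) := by
      refine Group.isSolvable_of_comm ?_
      rintro ⟨x, hx⟩ ⟨y, hy⟩
      exact Subtype.ext (hCc x hx.1 y hy.2)
    have hmem : ∀ x : ↥(E ⊓ K), QuotientGroup.mk' S' (x : G) ∈ C ⊓ Kb := by
      intro x
      refine ⟨hE1 x x.2.1, ?_⟩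
      rw [hKb]
      exact ⟨x, x.2.2, rfl⟩
    let g : ↥(E ⊓ K) →* ↥(C ⊓ Kb) :=
      ((QuotientGroup.mk' S').comp (E ⊓ K).subtype).codRestrict _ hmem
    have hs : Group.IsSolvable ↥(S' ⊓ (E ⊓ K)) := Grp_le inf_le_left hS's
    refine Group.isSolvable_of_ker_le_range
      (Subgroup.inclusion (inf_le_right : S' ⊓ (E ⊓ K) ≤ E ⊓ K)) g ?_
    intro x hx
    rw [MonoidHom.mem_ker] at hx
    have h1 : QuotientGroup.mk' S' (x : G) = 1 := congrArg Subtype.val hx
    exact ⟨⟨x, (QuotientGroup.eq_one_iff (x : G)).1 h1, x.2⟩, rfl⟩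
  let g : ↥E →* ↥H₁ := ((QuotientGroup.mk' K).comp E.subtype).codRestrict _ (fun x => hE2 x x.2)
  refine Group.isSolvable_of_ker_le_range (Subgroup.inclusion (inf_le_left : E ⊓ K ≤ E)) g ?_
  intro x hx
  rw [MonoidHom.mem_ker] at hx
  have h1 : QuotientGroup.mk' K (x : G) = 1 := congrArg Subtype.val hx
  exact ⟨⟨x, x.2, (QuotientGroup.eq_one_iff (x : G)).1 h1⟩, rfl⟩

end Pool.Agent.H14.HR
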