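import Mathlib
import Pool.Agent.H14.HP.Defs

/-! Project HR (MP_68c2bd): properly discontinuous affine groups with a hyperplane whose
stabiliser is cocompact on it.  Definitions, in the linear model: the affine space is the set
`τ = 1` in `E`, the hyperplane is `p = 0`, its images under the group are `p ∘ π g = 0`. -/

set_option autoImplicit false

namespace Pool.Agent.H14.HR

open NormedSpace Module Pool.Agent.H14.HP

variable {E : Type*} [NormedAddCommGroup E] [NormedSpace ℝ E] {Γ : Type*} [Group Γ]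

theorem pi_mul (π : Γ →* (E →L[ℝ] E)) (g h : Γ) (y : E) : π (g * h) y = π g (π h y) := by
  rw [map_mul]
  rfl

theorem pi_inv (π : Γ →* (E →L[ℝ] E)) (g : Γ) (y : E) : π g⁻¹ (π g y) = y := by
  rw [← pi_mul, inv_mul_cancel, map_one]
  rfl

theorem pi_inv' (π : Γ →* (E →L[ℝ] E)) (g : Γ) (y : E) : π g (π g⁻¹ y) = y := by
  rw [← pi_mul, mul_inv_cancel, map_one]
  rfl

/-- The stabiliser of the hyperplane `p = 0`. -/
def St (π : Γ →* (E →L[ℝ] E)) (p : E →L[ℝ] ℝ) : Subgroup Γ where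
  carrier := {g | ∃ μ : ℝ, μ ≠ 0 ∧ ∀ y, p (π g y) = μ * p y}
  one_mem' := ⟨1, one_ne_zero, fun y => by rw [map_one, one_mul]; rfl⟩
  mul_mem' := by
    rintro g h ⟨μ, hμ, h1⟩ ⟨ν, hν, h2⟩
    exact ⟨μ * ν, mul_ne_zero hμ hν, fun y => by rw [pi_mul, h1, h2, mul_assoc]⟩
  inv_mem' := by
    rintro g ⟨μ, hμ, h1⟩
    refine ⟨μ⁻¹, inv_ne_zero hμ, fun y => ?_⟩
    have h2 := h1 (π g⁻¹ y)
    rw [pi_inv'] at h2
    rw [h2, inv_mul_cancel_left₀ hμ]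

theorem mem_St {π : Γ →* (E →L[ℝ] E)} {p : E →L[ℝ] ℝ} {g : Γ} :
    g ∈ St π p ↔ ∃ μ : ℝ, μ ≠ 0 ∧ ∀ y, p (π g y) = μ * p y := Iff.rfl

/-- The subgroup `P` acts cocompactly on the part of `Y` in `τ = 1`. -/
def Coc (π : Γ →* (E →L[ℝ] E)) (τ : E →L[ℝ] ℝ) (P : Subgroup Γ) (Y : Set E) : Prop :=
  ∃ R : ℝ, ∀ y ∈ Y, τ y = 1 → ∃ g ∈ P, ‖π g y‖ ≤ R

/-- A properly discontinuous action with a hyperplane `p = 0` whose stabiliser is cocompact. -/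
structure Cfg (π : Γ →* (E →L[ℝ] E)) (τ p : E →L[ℝ] ℝ) : Prop where
  sys : Sys π τ
  ind : ∀ s : ℝ, ∃ y, p y ≠ s * τ y
  coc : Coc π τ (St π p) {y | p y = 0}

/-- Coordinates: `τ` and the functionals `p ∘ π (h i)` are a basis of the span of `τ` and all
`p ∘ π g`, and `x₀`, `v i` are dual vectors. -/
structure Fr (π : Γ →* (E →L[ℝ] E)) (τ p : E →L[ℝ] ℝ) {m : ℕ} (h : Fin m → Γ) (x₀ : E)
    (v : Fin m → E) : Prop where
  tx : τ x₀ = 1
  px : ∀ i, p (π (h i) x₀) = 0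
  tv : ∀ i, τ (v i) = 0
  pv : ∀ i, p (π (h i) (v i)) = 1
  pw : ∀ i j, j ≠ i → p (π (h j) (v i)) = 0
  span : ∀ g y, p (π g y) = p (π g x₀) * τ y + ∑ i, p (π g (v i)) * p (π (h i) y)

/-- The hyperplanes have finitely many directions. -/
def FinDir (π : Γ →* (E →L[ℝ] E)) (τ p : E →L[ℝ] ℝ) : Prop :=
  ∃ T : Set Γ, T.Finite ∧ ∀ g, ∃ t ∈ T, ∃ c s : ℝ, c ≠ 0 ∧
    ∀ y, p (π g y) = c * p (π t y) + s * τ y

/-- The subgroup that fixes all the functionals. -/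
def KK (π : Γ →* (E →L[ℝ] E)) (p : E →L[ℝ] ℝ) : Subgroup Γ where
  carrier := {g | ∀ h y, p (π h (π g y)) = p (π h y)}
  one_mem' := fun h y => by rw [map_one]; rfl
  mul_mem' := by
    intro g g' h1 h2 h y
    rw [pi_mul, ← pi_mul π h g, ← h2 h y, pi_mul]
    exact h1 h _
  inv_mem' := by
    intro g h1 h y
    have h2 := h1 h (π g⁻¹ y)
    rw [pi_inv'] at h2
    exact h2.symm

theorem mem_KK {π : Γ →* (E →L[ℝ] E)} {p : E →L[ℝ] ℝ} {g : Γ} :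
    g ∈ KK π p ↔ ∀ h y, p (π h (π g y)) = p (π h y) := Iff.rfl

instance KK_normal (π : Γ →* (E →L[ℝ] E)) (p : E →L[ℝ] ℝ) : (KK π p).Normal := by
  refine ⟨fun g hg γ => ?_⟩
  intro h y
  have h1 := hg (h * γ) (π γ⁻¹ y)
  rw [pi_mul π h γ, pi_mul π h γ, pi_inv'] at h1
  rw [pi_mul, pi_mul]
  exact h1

theorem KK_le (π : Γ →* (E →L[ℝ] E)) (p : E →L[ℝ] ℝ) : KK π p ≤ St π p := by
  intro g hg
  refine ⟨1, one_ne_zero, fun y => ?_⟩
  have h1 := hg 1 y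
  rw [map_one] at h1
  rw [one_mul]
  exact h1

end Pool.Agent.H14.HR
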