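import Mathlib
import Pool.Agent.H14.HR.Defs
import Pool.Agent.H14.HR.Grp

/-! HR11: the stabiliser is virtually abelian if an abelian group is cocompact. -/

set_option autoImplicit false

namespace Pool.Agent.H14.HR

open NormedSpace Module Pool.Agent.H14.HP

variable {E : Type*} [NormedAddCommGroup E] [NormedSpace ℝ E]
  {Γ : Type*} [Group Γ] {π : Γ →* (E →L[ℝ] E)} {τ p : E →L[ℝ] ℝ}

private theorem ab_le {A : Subgroup Γ} {φ : E →L[ℝ] ℝ} (HA : Hyp π τ A φ) : A ≤ St π φ := by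
  intro a ha
  obtain ⟨μ, hμ⟩ := HA.inv a ha
  by_cases h : μ = 0
  · have h0 : ∀ y, φ y = 0 := by
      intro y
      have h1 := hμ (π a⁻¹ y)
      rw [pi_inv', h, zero_mul] at h1
      exact h1
    exact ⟨1, one_ne_zero, fun y => by rw [h0, h0, mul_zero]⟩
  · exact ⟨μ, h, hμ⟩

theorem st_vs (S : Sys π τ) {A : Subgroup Γ} {φ : E →L[ℝ] ℝ} (HA : Hyp π τ A φ) {x₀ : E}
    (hx : τ x₀ = 1) (hp : φ x₀ = 0) : VS (St π φ) := by
  obtain ⟨R, hR⟩ := HA.coc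
  have hfin := S.prop (max R ‖x₀‖)
  set Φ := {g : Γ | ∃ x, τ x = 1 ∧ ‖x‖ ≤ max R ‖x₀‖ ∧ ‖π g x‖ ≤ max R ‖x₀‖} with hΦ
  have hT : {f : St π φ | (f : Γ) ∈ Φ}.Finite :=
    hfin.preimage Subtype.val_injective.injOn
  have hle := ab_le HA
  refine ⟨A.subgroupOf (St π φ), ?_, ?_⟩
  · have hfinT : Finite {f : St π φ | (f : Γ) ∈ Φ} := hT.to_subtype
    have hq : Finite (St π φ ⧸ A.subgroupOf (St π φ)) := by
      refine Finite.of_surjective
        (fun f : {f : St π φ | (f : Γ) ∈ Φ} => ((f.1⁻¹ : St π φ) : St π φ ⧸ A.subgroupOf (St π φ)))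
        ?_
      intro q
      induction q using QuotientGroup.induction_on with
      | H g =>
        obtain ⟨μ, hμ, hg⟩ := (St π φ).inv_mem g.2
        have h1 : φ (π (g : Γ)⁻¹ x₀) = 0 := by rw [hg, hp, mul_zero]
        have h2 : τ (π (g : Γ)⁻¹ x₀) = 1 := by rw [S.tau, hx]
        obtain ⟨a, ha, han⟩ := hR _ h1 h2
        rw [← pi_mul] at han
        have hmem : a * (g : Γ)⁻¹ ∈ Φ :=
          ⟨x₀, hx, le_max_right _ _, han.trans (le_max_left _ _)⟩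
        have hst : a * (g : Γ)⁻¹ ∈ St π φ := (St π φ).mul_mem (hle ha) ((St π φ).inv_mem g.2)
        refine ⟨⟨⟨a * (g : Γ)⁻¹, hst⟩, hmem⟩, ?_⟩
        rw [QuotientGroup.eq, Subgroup.mem_subgroupOf]
        simpa using ha
    exact Subgroup.finiteIndex_of_finite_quotient
  · apply Group.isSolvable_of_comm
    rintro ⟨⟨a, ha'⟩, ha⟩ ⟨⟨b, hb'⟩, hb⟩
    rw [Subgroup.mem_subgroupOf] at ha hb
    apply Subtype.ext
    apply Subtype.ext
    exact HA.comm a ha b hb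

theorem hyp_coc (S : Sys π τ) {A : Subgroup Γ} {φ : E →L[ℝ] ℝ} (HA : Hyp π τ A φ) {x₀ : E}
    (hx : τ x₀ = 1) (hp : φ x₀ = 0) (h0 : φ ≠ 0) : Cfg π τ φ := by
  refine ⟨S, ?_, ?_⟩
  · intro s
    by_contra hcon
    push Not at hcon
    have h1 := hcon x₀
    rw [hx, hp, mul_one] at h1
    apply h0
    ext y
    rw [hcon y, ← h1, zero_mul]
    rfl
  · obtain ⟨R, hR⟩ := HA.coc
    refine ⟨R, fun y hy hy1 => ?_⟩
    obtain ⟨a, ha, han⟩ := hR y hy hy1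
    exact ⟨a, ab_le HA ha, han⟩

end Pool.Agent.H14.HR
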