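import Mathlib
import Pool.Agent.H14.HR.Defs

set_option autoImplicit false

namespace Pool.Agent.H14.HR

open NormedSpace Module Pool.Agent.H14.HP

variable {E : Type*} [NormedAddCommGroup E] [NormedSpace ℝ E] {Γ : Type*} [Group Γ]
  {π : Γ →* (E →L[ℝ] E)} {τ p : E →L[ℝ] ℝ}

/-- The functional `y ↦ p (π g y)`, as a linear map. -/
private noncomputable def frameQ (π : Γ →* (E →L[ℝ] E)) (p : E →L[ℝ] ℝ) (g : Γ) : E →ₗ[ℝ] ℝ :=
  (p.comp (π g)).toLinearMap

private theorem frameQ_apply (g : Γ) (y : E) : frameQ π p g y = p (π g y) := rfl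

/-- Dual vectors of a finite independent family of functionals. -/
private theorem frame_dual {ι : Type*} [Finite ι] (f : ι → (E →ₗ[ℝ] ℝ))
    (hf : LinearIndependent ℝ f) (k : ι) : ∃ w, f k w = 1 ∧ ∀ j, j ≠ k → f j w = 0 := by
  by_contra hcon
  have h1 : ∀ w, (∀ j, j ≠ k → f j w = 0) → f k w = 0 := by
    intro w hw
    by_contra hk
    apply hcon
    refine ⟨(f k w)⁻¹ • w, ?_, fun j hj => ?_⟩
    · rw [map_smul, smul_eq_mul, inv_mul_cancel₀ hk]
    · rw [map_smul, hw j hj, smul_zero]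
  have h2 : f k ∈ Submodule.span ℝ (Set.range fun j : {j // j ≠ k} => f j.1) := by
    apply mem_span_of_iInf_ker_le_ker
    intro w hw
    rw [Submodule.mem_iInf] at hw
    exact h1 w fun j hj => hw ⟨j, hj⟩
  have h3 : (Set.range fun j : {j // j ≠ k} => f j.1) = f '' {j | j ≠ k} := by
    ext x
    simp
  rw [h3] at h2
  exact hf.notMem_span_image (s := {j | j ≠ k}) (x := k) (by simp) h2

/-- The family `τ, q_(h 0), q_(h 1), …` is independent for some `h`. -/
private def FrameP (π : Γ →* (E →L[ℝ] E)) (τ p : E →L[ℝ] ℝ) (m : ℕ) : Prop :=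
  ∃ h : Fin m → Γ, LinearIndependent ℝ
    (Fin.cons τ.toLinearMap (fun i => frameQ π p (h i)) : Fin (m + 1) → (E →ₗ[ℝ] ℝ))

private theorem frame_max [FiniteDimensional ℝ E] (ht : ∃ x, τ x = 1) :
    ∃ m, FrameP π τ p m ∧ ¬ FrameP π τ p (m + 1) := by
  by_contra hcon
  push Not at hcon
  have h0 : FrameP π τ p 0 := by
    refine ⟨fun i => i.elim0, ?_⟩
    rw [linearIndependent_finCons]
    refine ⟨linearIndependent_empty_type, ?_⟩
    rw [Set.range_eq_empty, Submodule.span_empty, Submodule.mem_bot]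
    intro h
    obtain ⟨x, hx⟩ := ht
    have : τ x = 0 := by
      have := congrArg (fun f : E →ₗ[ℝ] ℝ => f x) h
      simpa using this
    rw [this] at hx
    exact zero_ne_one hx
  have hall : ∀ m, FrameP π τ p m := by
    intro m
    induction m with
    | zero => exact h0
    | succ m ih => exact hcon m ih
  obtain ⟨h, hh⟩ := hall (finrank ℝ (E →ₗ[ℝ] ℝ))
  have := hh.fintype_card_le_finrank
  simp at this

theorem exists_frame [FiniteDimensional ℝ E] (C : Cfg π τ p) (ht : ∃ x, τ x = 1) :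
    ∃ (m : ℕ) (h : Fin m → Γ) (x₀ : E) (v : Fin m → E), 0 < m ∧ Fr π τ p h x₀ v := by
  obtain ⟨m, ⟨h, hh⟩, hmax⟩ := frame_max (π := π) (p := p) ht
  have hdual := frame_dual _ hh
  obtain ⟨x₀, hx1, hx2⟩ := hdual 0
  have hv := fun i : Fin m => hdual i.succ
  choose v hv1 hv2 using hv
  have hspan : ∀ g, frameQ π p g ∈ Submodule.span ℝ (Set.range
      (Fin.cons τ.toLinearMap (fun i => frameQ π p (h i)) : Fin (m + 1) → (E →ₗ[ℝ] ℝ))) := by
    intro g
    by_contra hg
    apply hmax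
    refine ⟨Fin.snoc h g, ?_⟩
    have h1 : LinearIndependent ℝ (Fin.snoc (Fin.cons τ.toLinearMap
        (fun i => frameQ π p (h i)) : Fin (m + 1) → (E →ₗ[ℝ] ℝ)) (frameQ π p g) :
        Fin (m + 1 + 1) → (E →ₗ[ℝ] ℝ)) := by
      rw [linearIndependent_finSnoc]
      exact ⟨hh, hg⟩
    rw [← Fin.cons_snoc_eq_snoc_cons] at h1
    convert h1 using 2
    funext i
    refine Fin.lastCases ?_ (fun j => ?_) i
    · simp
    · simp
  have hsp : ∀ g, ∃ (s : ℝ) (c : Fin m → ℝ), ∀ y,
      p (π g y) = s * τ y + ∑ i, c i * p (π (h i) y) := by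
    intro g
    have h1 := hspan g
    rw [Submodule.mem_span_range_iff_exists_fun] at h1
    obtain ⟨c, hc⟩ := h1
    refine ⟨c 0, fun i => c i.succ, fun y => ?_⟩
    have h2 := congrArg (fun f : E →ₗ[ℝ] ℝ => f y) hc
    simp only [Fin.sum_univ_succ, Fin.cons_zero, Fin.cons_succ, LinearMap.add_apply,
      LinearMap.smul_apply, LinearMap.sum_apply, smul_eq_mul] at h2
    rw [← frameQ_apply (π := π) (p := p), ← h2]
    rfl
  have tx : τ x₀ = 1 := hx1
  have px : ∀ i, p (π (h i) x₀) = 0 := fun i => hx2 i.succ (Fin.succ_ne_zero i)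
  have tv : ∀ i, τ (v i) = 0 := fun i => hv2 i 0 (Fin.succ_ne_zero i).symm
  have pv : ∀ i, p (π (h i) (v i)) = 1 := fun i => hv1 i
  have pw : ∀ i j, j ≠ i → p (π (h j) (v i)) = 0 := fun i j hj =>
    hv2 i j.succ (fun hc => hj (Fin.succ_injective _ hc))
  refine ⟨m, h, x₀, v, ?_, ⟨tx, px, tv, pv, pw, ?_⟩⟩
  · rcases Nat.eq_zero_or_pos m with hm | hm
    · exfalso
      subst hm
      obtain ⟨s, c, hc⟩ := hsp 1
      obtain ⟨y, hy⟩ := C.ind s
      apply hy
      have := hc y
      rw [map_one] at this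
      simpa using this
    · exact hm
  · intro g y
    obtain ⟨s, c, hc⟩ := hsp g
    have hs : p (π g x₀) = s := by
      rw [hc x₀, tx, Finset.sum_eq_zero (fun i _ => by rw [px, mul_zero])]
      ring
    have hci : ∀ i, p (π g (v i)) = c i := by
      intro i
      rw [hc (v i), tv, Finset.sum_eq_single i]
      · rw [pv]
        ring
      · intro j _ hj
        rw [pw i j hj, mul_zero]
      · intro hi
        exact absurd (Finset.mem_univ i) hi
    rw [hs]
    simp only [hci]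
    exact hc y

end Pool.Agent.H14.HR
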