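import Mathlib
import Pool.Agent.H14.HR.Defs

/-! HR2: local finiteness. -/

set_option autoImplicit false

namespace Pool.Agent.H14.HR

open NormedSpace Module Pool.Agent.H14.HP

variable {E : Type*} [NormedAddCommGroup E] [NormedSpace ℝ E]
  {Γ : Type*} [Group Γ] {π : Γ →* (E →L[ℝ] E)} {τ p : E →L[ℝ] ℝ}

theorem lf_fin (C : Cfg π τ p) (R : ℝ) :
    ∃ T : Set Γ, T.Finite ∧ ∀ g x, τ x = 1 → ‖x‖ ≤ R → p (π g x) = 0 →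
      ∃ t ∈ T, ∃ c : ℝ, c ≠ 0 ∧ ∀ y, p (π g y) = c * p (π t y) := by
  obtain ⟨R₀, hR₀⟩ := C.coc
  refine ⟨_, C.sys.prop (max R R₀), ?_⟩
  intro g x hx hR h0
  obtain ⟨b, hb, hbn⟩ := hR₀ (π g x) h0 (by rw [C.sys.tau, hx])
  obtain ⟨μ, hμ, hp⟩ := hb
  refine ⟨b * g, ⟨x, hx, hR.trans (le_max_left _ _), ?_⟩, μ⁻¹, inv_ne_zero hμ, fun y => ?_⟩
  · rw [pi_mul]
    exact hbn.trans (le_max_right _ _)
  · rw [pi_mul, hp, inv_mul_cancel_left₀ hμ]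

theorem lf_seq (C : Cfg π τ p) (R : ℝ) (g : ℕ → Γ) (x : ℕ → E) (hx : ∀ k, τ (x k) = 1)
    (hR : ∀ k, ‖x k‖ ≤ R) (h0 : ∀ k, p (π (g k) (x k)) = 0) :
    ∃ k l : ℕ, k ≠ l ∧ ∃ c : ℝ, c ≠ 0 ∧ ∀ y, p (π (g k) y) = c * p (π (g l) y) := by
  obtain ⟨T, hT, hfin⟩ := lf_fin C R
  choose t ht c hc hy using fun k => hfin (g k) (x k) (hx k) (hR k) (h0 k)
  obtain ⟨k, -, l, -, hkl, htkl⟩ :=
    Set.infinite_univ.exists_ne_map_eq_of_mapsTo (f := t) (fun k _ => ht k) hT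
  refine ⟨k, l, hkl, c k * (c l)⁻¹, mul_ne_zero (hc k) (inv_ne_zero (hc l)), fun y => ?_⟩
  rw [hy k y, hy l y, htkl, mul_assoc, inv_mul_cancel_left₀ (hc l)]

end Pool.Agent.H14.HR
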