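import Mathlib
import Pool.Agent.H14.HR.Defs
import Pool.Agent.H14.HR.LF

/-! HR7: the mixed coefficients vanish. -/

set_option autoImplicit false

namespace Pool.Agent.H14.HR

open NormedSpace Module Pool.Agent.H14.HP

variable {E : Type*} [NormedAddCommGroup E] [NormedSpace ℝ E]
  {Γ : Type*} [Group Γ] {π : Γ →* (E →L[ℝ] E)} {τ p : E →L[ℝ] ℝ}

private theorem Good_pow {m : ℕ} {h : Fin m → Γ} (i : Fin m) {σ : Γ} {μ : Fin m → ℝ}
    (h1 : ∀ j, j ≠ i → ∀ y, p (π (h j) (π σ y)) = μ j * p (π (h j) y)) :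
    ∀ (k : ℕ) (j : Fin m), j ≠ i → ∀ y : E, p (π (h j) (π (σ ^ k) y)) = μ j ^ k * p (π (h j) y) := by
  intro k
  induction k with
  | zero =>
    intro j _ y
    rw [pow_zero, pow_zero, map_one, one_mul]
    rfl
  | succ k ih =>
    intro j hj y
    rw [pow_succ' σ k, pi_mul, h1 j hj, ih j hj, pow_succ]
    ring

private theorem Good_powi (S : Sys π τ) {m : ℕ} {h : Fin m → Γ} (i : Fin m) {σ : Γ}
    {μ b : Fin m → ℝ} {a : ℝ} (hb : b i = 0)
    (h1 : ∀ j, j ≠ i → ∀ y, p (π (h j) (π σ y)) = μ j * p (π (h j) y))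
    (h2 : ∀ y, p (π (h i) (π σ y)) = p (π (h i) y) + a * τ y + ∑ l, b l * p (π (h l) y)) :
    ∀ (k : ℕ) (y : E), p (π (h i) (π (σ ^ k) y)) = p (π (h i) y) + (k : ℝ) * a * τ y
      + ∑ l, b l * (∑ n ∈ Finset.range k, μ l ^ n) * p (π (h l) y) := by
  intro k
  induction k with
  | zero =>
    intro y
    simp
  | succ k ih =>
    intro y
    have h3 : ∑ l, b l * p (π (h l) (π (σ ^ k) y)) = ∑ l, b l * (μ l ^ k) * p (π (h l) y) := by
      refine Finset.sum_congr rfl fun l _ => ?_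
      rcases eq_or_ne l i with rfl | hl
      · rw [hb, zero_mul, zero_mul, zero_mul]
      · rw [Good_pow i h1 k l hl, mul_assoc]
    have h4 : ∑ l, b l * (∑ n ∈ Finset.range (k + 1), μ l ^ n) * p (π (h l) y)
        = ∑ l, b l * (∑ n ∈ Finset.range k, μ l ^ n) * p (π (h l) y)
          + ∑ l, b l * (μ l ^ k) * p (π (h l) y) := by
      rw [← Finset.sum_add_distrib]
      refine Finset.sum_congr rfl fun l _ => ?_
      rw [Finset.sum_range_succ]
      ring
    rw [pow_succ' σ k, pi_mul, h2, ih, S.tau, h3, h4]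
    push_cast
    ring

private theorem Good_sum_ge {μ : ℝ} (hμ : 1 ≤ μ) (k : ℕ) :
    (k : ℝ) ≤ ∑ n ∈ Finset.range k, μ ^ n := by
  induction k with
  | zero => simp
  | succ k ih =>
    rw [Finset.sum_range_succ]
    push_cast
    have := one_le_pow₀ hμ (n := k)
    linarith

private theorem Good_core (C : Cfg π τ p) {m : ℕ} {h : Fin m → Γ} {x₀ : E} {v : Fin m → E}
    (F : Fr π τ p h x₀ v) (i : Fin m) {σ : Γ} {μ b : Fin m → ℝ} {a : ℝ} (ha : a ≠ 0)
    (hb : b i = 0)
    (h1 : ∀ j, j ≠ i → ∀ y, p (π (h j) (π σ y)) = μ j * p (π (h j) y))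
    (h2 : ∀ y, p (π (h i) (π σ y)) = p (π (h i) y) + a * τ y + ∑ l, b l * p (π (h l) y))
    {j : Fin m} (hj : j ≠ i) (hμ : 1 ≤ μ j) : b j = 0 := by
  by_contra hbj
  set S : ℕ → ℝ := fun k => ∑ n ∈ Finset.range (k + 1), μ j ^ n with hSd
  have hS : ∀ k : ℕ, ((k : ℝ) + 1) ≤ S k := by
    intro k
    have := Good_sum_ge hμ (k + 1)
    push_cast at this
    exact this
  have hSpos : ∀ k : ℕ, 0 < S k := fun k => lt_of_lt_of_le (by positivity) (hS k)
  set t : ℕ → ℝ := fun k => (((k : ℝ) + 1) * a) / (b j * S k) with htd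
  have key := Good_powi C.sys i hb h1 h2
  have hXx : ∀ (k : ℕ) (l : Fin m), p (π (h l) (x₀ - t k • v j)) = if l = j then -t k else 0 := by
    intro k l
    rw [map_sub, map_sub, map_smul, map_smul, F.px, smul_eq_mul]
    split_ifs with hl
    · rw [hl, F.pv]
      ring
    · rw [F.pw j l hl]
      ring
  obtain ⟨k, l, hkl, c, hc0, hc⟩ := lf_seq C (‖x₀‖ + |a / b j| * ‖v j‖)
    (fun k => h i * σ ^ (k + 1)) (fun k => x₀ - t k • v j)
    (fun k => by rw [map_sub, map_smul, F.tx, F.tv, smul_zero, sub_zero])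
    (fun k => by
      refine (norm_sub_le _ _).trans ?_
      gcongr
      rw [norm_smul]
      gcongr
      rw [Real.norm_eq_abs]
      have e : t k = (((k : ℝ) + 1) / S k) * (a / b j) := by
        have := (hSpos k).ne'
        simp only [htd]
        field_simp
      rw [e, abs_mul]
      have h3 : |((k : ℝ) + 1) / S k| ≤ 1 := by
        rw [abs_of_nonneg (by have := hSpos k; positivity)]
        exact (div_le_one (hSpos k)).2 (hS k)
      exact mul_le_of_le_one_left (abs_nonneg _) h3)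
    (fun k => by
      rw [pi_mul, key (k + 1), hXx]
      have h3 : ∑ l, b l * (∑ n ∈ Finset.range (k + 1), μ l ^ n)
          * p (π (h l) (x₀ - t k • v j)) = b j * S k * (-t k) := by
        rw [Finset.sum_eq_single j]
        · rw [hXx, if_pos rfl]
        · intro l _ hl
          rw [hXx, if_neg hl, mul_zero]
        · intro hj
          exact absurd (Finset.mem_univ _) hj
      rw [h3, if_neg (Ne.symm hj), map_sub, map_smul, F.tx, F.tv]
      have := (hSpos k).ne'
      simp only [htd]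
      push_cast
      field_simp
      simp)
  have e1 := hc (v i)
  have e2 := hc x₀
  have z1 : ∀ k : ℕ, p (π (h i * σ ^ (k + 1)) (v i)) = 1 := by
    intro k
    have h3 : ∑ l, b l * (∑ n ∈ Finset.range (k + 1), μ l ^ n) * p (π (h l) (v i)) = 0 := by
      refine Finset.sum_eq_zero fun l _ => ?_
      rcases eq_or_ne l i with rfl | hl
      · rw [hb, zero_mul, zero_mul]
      · rw [F.pw i l hl, mul_zero]
    rw [pi_mul, key (k + 1), h3, F.pv, F.tv, mul_zero, add_zero, add_zero]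
  have z2 : ∀ k : ℕ, p (π (h i * σ ^ (k + 1)) x₀) = ((k : ℝ) + 1) * a := by
    intro k
    have h3 : ∑ l, b l * (∑ n ∈ Finset.range (k + 1), μ l ^ n) * p (π (h l) x₀) = 0 := by
      refine Finset.sum_eq_zero fun l _ => ?_
      rw [F.px, mul_zero]
    rw [pi_mul, key (k + 1), h3, F.px, F.tx]
    push_cast
    ring
  rw [z1, z1, mul_one] at e1
  rw [z2, z2, ← e1, one_mul] at e2
  have h5 := mul_right_cancel₀ ha e2
  apply hkl
  exact_mod_cast (add_right_cancel h5)

theorem line_good (C : Cfg π τ p) {m : ℕ} {h : Fin m → Γ} {x₀ : E} {v : Fin m → E}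
    (F : Fr π τ p h x₀ v) (i : Fin m) (r : Γ)
    (hr : ∀ j, j ≠ i → ∃ μ : ℝ, μ ≠ 0 ∧ ∀ y, p (π (h j) (π r y)) = μ * p (π (h j) y))
    (h1 : p (π (h i) (π r (v i))) = 1) (h2 : p (π (h i) (π r x₀)) ≠ 0) :
    ∃ s : Γ, ∃ α : ℝ, α ≠ 0 ∧ (∀ y, p (π (h i) (π s y)) = p (π (h i) y) + α * τ y) ∧
      ∀ j, j ≠ i → ∃ μ : ℝ, 0 < μ ∧ ∀ y, p (π (h j) (π s y)) = μ * p (π (h j) y) := by
  classical
  choose! μ hμ0 hμ using hr
  set a : ℝ := p (π (h i) (π r x₀)) with had
  set b : Fin m → ℝ := fun l => if l = i then 0 else p (π (h i) (π r (v l))) with hbd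
  have hbi : b i = 0 := if_pos rfl
  -- the action of `r` on the coordinate `i`
  have hri : ∀ y, p (π (h i) (π r y)) = p (π (h i) y) + a * τ y + ∑ l, b l * p (π (h l) y) := by
    intro y
    have h3 := F.span (h i * r) y
    simp only [pi_mul] at h3
    rw [h3]
    have h4 : ∑ l, p (π (h i) (π r (v l))) * p (π (h l) y)
        = p (π (h i) y) + ∑ l, b l * p (π (h l) y) := by
      rw [← Finset.add_sum_erase _ _ (Finset.mem_univ i),
        ← Finset.add_sum_erase (Finset.univ : Finset (Fin m)) (fun l => b l * p (π (h l) y))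
          (Finset.mem_univ i), h1, one_mul, hbi, zero_mul, zero_add]
      congr 1
      refine Finset.sum_congr rfl fun l hl => ?_
      have : b l = p (π (h i) (π r (v l))) := if_neg (Finset.ne_of_mem_erase hl)
      rw [this]
    rw [h4]
    ring
  -- the square
  set s : Γ := r * r with hsd
  set ν : Fin m → ℝ := fun l => μ l ^ 2 with hνd
  set B : Fin m → ℝ := fun l => b l * (1 + μ l) with hBd
  have hBi : B i = 0 := by
    simp only [hBd, hbi, zero_mul]
  have hsj : ∀ j, j ≠ i → ∀ y, p (π (h j) (π s y)) = ν j * p (π (h j) y) := by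
    intro j hj y
    rw [hsd, pi_mul, hμ j hj, hμ j hj]
    simp only [hνd]
    ring
  have hsi : ∀ y, p (π (h i) (π s y)) = p (π (h i) y) + (2 * a) * τ y
      + ∑ l, B l * p (π (h l) y) := by
    intro y
    have h3 : ∑ l, b l * p (π (h l) (π r y)) = ∑ l, b l * μ l * p (π (h l) y) := by
      refine Finset.sum_congr rfl fun l _ => ?_
      rcases eq_or_ne l i with rfl | hl
      · rw [hbi, zero_mul, zero_mul, zero_mul]
      · rw [hμ l hl, mul_assoc]
    have h4 : ∑ l, B l * p (π (h l) y)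
        = ∑ l, b l * p (π (h l) y) + ∑ l, b l * μ l * p (π (h l) y) := by
      rw [← Finset.sum_add_distrib]
      refine Finset.sum_congr rfl fun l _ => ?_
      simp only [hBd]
      ring
    rw [hsd, pi_mul, hri, hri, h3, h4, C.sys.tau]
    ring
  have hν : ∀ j, j ≠ i → 0 < ν j := by
    intro j hj
    have := hμ0 j hj
    simp only [hνd]
    positivity
  have ha2 : (2 * a) ≠ 0 := mul_ne_zero two_ne_zero h2
  -- the inverse of the square
  have hinvj : ∀ j, j ≠ i → ∀ y, p (π (h j) (π s⁻¹ y)) = (ν j)⁻¹ * p (π (h j) y) := by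
    intro j hj y
    have h3 := hsj j hj (π s⁻¹ y)
    rw [pi_inv'] at h3
    rw [h3, inv_mul_cancel_left₀ (hν j hj).ne']
  have hinvi : ∀ y, p (π (h i) (π s⁻¹ y)) = p (π (h i) y) + (-(2 * a)) * τ y
      + ∑ l, (-(B l * (ν l)⁻¹)) * p (π (h l) y) := by
    intro y
    have h3 := hsi (π s⁻¹ y)
    rw [pi_inv', C.sys.tau] at h3
    have h4 : ∑ l, B l * p (π (h l) (π s⁻¹ y)) = ∑ l, B l * (ν l)⁻¹ * p (π (h l) y) := by
      refine Finset.sum_congr rfl fun l _ => ?_
      rcases eq_or_ne l i with rfl | hl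
      · rw [hBi, zero_mul, zero_mul, zero_mul]
      · rw [hinvj l hl]
        ring
    have h5 : ∑ l, (-(B l * (ν l)⁻¹)) * p (π (h l) y)
        = -∑ l, B l * (ν l)⁻¹ * p (π (h l) y) := by
      rw [← Finset.sum_neg_distrib]
      refine Finset.sum_congr rfl fun l _ => ?_
      ring
    rw [h5, ← h4]
    linarith
  have hB0 : ∀ j, B j = 0 := by
    intro j
    rcases eq_or_ne j i with rfl | hj
    · exact hBi
    rcases le_or_gt 1 (ν j) with h3 | h3
    · exact Good_core C F i ha2 hBi hsj hsi hj h3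
    · have h4 := Good_core C F i (b := fun l => -(B l * (ν l)⁻¹)) (μ := fun l => (ν l)⁻¹)
        (neg_ne_zero.2 ha2) (by rw [hBi, zero_mul, neg_zero]) hinvj hinvi hj
        ((one_le_inv₀ (hν j hj)).2 h3.le)
      have h5 : B j * (ν j)⁻¹ = 0 := neg_eq_zero.1 h4
      exact (mul_eq_zero.1 h5).resolve_right (inv_ne_zero (hν j hj).ne')
  refine ⟨s, 2 * a, ha2, fun y => ?_, fun j hj => ⟨ν j, hν j hj, hsj j hj⟩⟩
  rw [hsi]
  simp [hB0]

end Pool.Agent.H14.HR
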