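import Mathlib
import Pool.Agent.H14.HR.Defs

/-! HR3: cocompactness of intersections. -/

set_option autoImplicit false

namespace Pool.Agent.H14.HR

open NormedSpace Module Pool.Agent.H14.HP

variable {E : Type*} [NormedAddCommGroup E] [NormedSpace ℝ E]
  {Γ : Type*} [Group Γ] {π : Γ →* (E →L[ℝ] E)} {τ p : E →L[ℝ] ℝ}

theorem coc_inter (S : Sys π τ) {P Q : Subgroup Γ} {Y Z : Set E} (hP : Coc π τ P Y)
    (hQ : Coc π τ Q Z) : Coc π τ (P ⊓ Q) (Y ∩ Z) := by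
  classical
  obtain ⟨RA, hRA⟩ := hP
  obtain ⟨RB, hRB⟩ := hQ
  have hfin := S.prop (max RA RB)
  have hex : ∀ g : Γ, ∃ a : Γ, (∃ a' ∈ P, ∃ b' ∈ Q, b' * a'⁻¹ = g) →
      a ∈ P ∧ ∃ b ∈ Q, b * a⁻¹ = g := by
    intro g
    by_cases h : ∃ a' ∈ P, ∃ b' ∈ Q, b' * a'⁻¹ = g
    · obtain ⟨a', ha', h2⟩ := h
      exact ⟨a', fun _ => ⟨ha', h2⟩⟩
    · exact ⟨1, fun h' => absurd h' h⟩
  choose f hf using hex
  obtain ⟨K, hK⟩ := (hfin.image fun g => ‖π (f g)⁻¹‖).bddAbove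
  refine ⟨K * RA, fun y hy ht => ?_⟩
  obtain ⟨a, ha, han⟩ := hRA y hy.1 ht
  obtain ⟨b, hb, hbn⟩ := hRB y hy.2 ht
  obtain ⟨hfA, b', hb', hbe⟩ := hf (b * a⁻¹) ⟨a, ha, b, hb, rfl⟩
  have hmem : b * a⁻¹ ∈ {g : Γ | ∃ x, τ x = 1 ∧ ‖x‖ ≤ max RA RB ∧ ‖π g x‖ ≤ max RA RB} := by
    refine ⟨π a y, by rw [S.tau, ht], han.trans (le_max_left _ _), ?_⟩
    rw [pi_mul, pi_inv]
    exact hbn.trans (le_max_right _ _)
  have hKb : ‖π (f (b * a⁻¹))⁻¹‖ ≤ K := hK ⟨_, hmem, rfl⟩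
  refine ⟨(f (b * a⁻¹))⁻¹ * a, ⟨P.mul_mem (P.inv_mem hfA) ha, ?_⟩, ?_⟩
  · have h1 : (f (b * a⁻¹))⁻¹ * a = b'⁻¹ * b := by
      have h2 : b' * (f (b * a⁻¹))⁻¹ = b * a⁻¹ := hbe
      calc (f (b * a⁻¹))⁻¹ * a = b'⁻¹ * (b' * (f (b * a⁻¹))⁻¹) * a := by group
        _ = b'⁻¹ * (b * a⁻¹) * a := by rw [h2]
        _ = b'⁻¹ * b := by group
    rw [h1]
    exact Q.mul_mem (Q.inv_mem hb') hb
  · rw [pi_mul]
    calc ‖π (f (b * a⁻¹))⁻¹ (π a y)‖ ≤ ‖π (f (b * a⁻¹))⁻¹‖ * ‖π a y‖ :=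
          (π (f (b * a⁻¹))⁻¹).le_opNorm _
      _ ≤ K * RA := mul_le_mul hKb han (norm_nonneg _) ((norm_nonneg _).trans hKb)

theorem coc_conj (C : Cfg π τ p) (h : Γ) : Coc π τ (St π (p.comp (π h))) {y | p (π h y) = 0} := by
  obtain ⟨R, hR⟩ := C.coc
  refine ⟨‖π h⁻¹‖ * R, fun y hy ht => ?_⟩
  obtain ⟨b, ⟨μ, hμ, hb⟩, hbn⟩ := hR (π h y) hy (by rw [C.sys.tau, ht])
  refine ⟨h⁻¹ * b * h, ⟨μ, hμ, fun z => ?_⟩, ?_⟩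
  · show p (π h (π (h⁻¹ * b * h) z)) = μ * p (π h z)
    rw [pi_mul, pi_mul, pi_inv', hb]
  · rw [pi_mul, pi_mul]
    exact ((π h⁻¹).le_opNorm _).trans (mul_le_mul_of_nonneg_left hbn (norm_nonneg _))

private theorem Coc_fin (C : Cfg π τ p) {m : ℕ} (h : Fin m → Γ) {s : Finset (Fin m)}
    (hs : s.Nonempty) : Coc π τ (⨅ j ∈ s, St π (p.comp (π (h j))))
      {y | ∀ j ∈ s, p (π (h j) y) = 0} := by
  induction hs using Finset.Nonempty.cons_induction with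
  | singleton a =>
    obtain ⟨R, hR⟩ := coc_conj C (h a)
    refine ⟨R, fun y hy ht => ?_⟩
    obtain ⟨g, hg, hn⟩ := hR y (hy a (Finset.mem_singleton_self a)) ht
    refine ⟨g, ?_, hn⟩
    simpa [Subgroup.mem_iInf] using hg
  | cons a s ha hs ih =>
    obtain ⟨R, hR⟩ := coc_inter C.sys (coc_conj C (h a)) ih
    refine ⟨R, fun y hy ht => ?_⟩
    obtain ⟨g, hg, hn⟩ := hR y ⟨hy a (Finset.mem_cons_self a s),
      fun j hj => hy j (Finset.mem_cons_of_mem hj)⟩ ht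
    refine ⟨g, ?_, hn⟩
    obtain ⟨h1, h2⟩ := Subgroup.mem_inf.1 hg
    rw [Subgroup.mem_iInf] at h2
    rw [Subgroup.mem_iInf]
    intro j
    rw [Subgroup.mem_iInf]
    intro hj
    rcases Finset.mem_cons.1 hj with rfl | hj
    · exact h1
    · exact (Subgroup.mem_iInf.1 (h2 j)) hj

theorem coc_line (C : Cfg π τ p) {m : ℕ} (h : Fin m → Γ) (i : Fin m) (hm : ∃ j, j ≠ i) :
    ∃ R : ℝ, ∀ y, τ y = 1 → (∀ j, j ≠ i → p (π (h j) y) = 0) →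
      ∃ g : Γ, (∀ j, j ≠ i → ∃ μ : ℝ, μ ≠ 0 ∧ ∀ y, p (π (h j) (π g y)) = μ * p (π (h j) y)) ∧
        ‖π g y‖ ≤ R := by
  classical
  obtain ⟨j₀, hj₀⟩ := hm
  have hs : (Finset.univ.filter fun j : Fin m => j ≠ i).Nonempty :=
    ⟨j₀, Finset.mem_filter.2 ⟨Finset.mem_univ _, hj₀⟩⟩
  obtain ⟨R, hR⟩ := Coc_fin C h hs
  refine ⟨R, fun y ht hy => ?_⟩
  obtain ⟨g, hg, hn⟩ := hR y (fun j hj => hy j (Finset.mem_filter.1 hj).2) ht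
  refine ⟨g, fun j hj => ?_, hn⟩
  rw [Subgroup.mem_iInf] at hg
  exact (Subgroup.mem_iInf.1 (hg j)) (Finset.mem_filter.2 ⟨Finset.mem_univ _, hj⟩)

end Pool.Agent.H14.HR
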