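import Mathlib

/-! HR4: an affine map of the line that preserves a locally finite set with two points is an
isometry. -/

set_option autoImplicit false

namespace Pool.Agent.H14.HR

theorem real_aux {Z : Set ℝ} (hZ : ∀ R : ℝ, {z | z ∈ Z ∧ |z| ≤ R}.Finite) {z c : ℝ}
    (h1 : z ∈ Z) (hne : z ≠ c) {l : ℝ} (hl : l ≠ 0) (hlt : |l| < 1)
    (f : ∀ z ∈ Z, c + l * (z - c) ∈ Z) : False := by
  have hmem : ∀ k : ℕ, c + l ^ k * (z - c) ∈ Z := by
    intro k
    induction k with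
    | zero =>
      rw [pow_zero, one_mul, add_sub_cancel]
      exact h1
    | succ k ih =>
      have h2 := f _ ih
      have h3 : c + l * (c + l ^ k * (z - c) - c) = c + l ^ (k + 1) * (z - c) := by ring
      rwa [h3] at h2
  have hinj : Function.Injective fun k : ℕ => c + l ^ k * (z - c) := by
    intro k k' hk
    have h2 : l ^ k * (z - c) = l ^ k' * (z - c) := add_left_cancel hk
    have h3 : l ^ k = l ^ k' := mul_right_cancel₀ (sub_ne_zero.2 hne) h2
    have h4 : |l| ^ k = |l| ^ k' := by rw [← abs_pow, ← abs_pow, h3]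
    exact (pow_right_strictAnti₀ (abs_pos.2 hl) hlt).injective h4
  refine Set.infinite_range_of_injective hinj ((hZ (|c| + |z - c|)).subset ?_)
  rintro _ ⟨k, rfl⟩
  refine ⟨hmem k, (abs_add_le _ _).trans ?_⟩
  rw [abs_mul, abs_pow]
  have h2 : |l| ^ k ≤ 1 := pow_le_one₀ (abs_nonneg l) hlt.le
  have h3 := mul_le_mul_of_nonneg_right h2 (abs_nonneg (z - c))
  linarith

theorem real_iso {Z : Set ℝ} (hZ : ∀ R : ℝ, {z | z ∈ Z ∧ |z| ≤ R}.Finite) {z₁ z₂ : ℝ}
    (h1 : z₁ ∈ Z) (h2 : z₂ ∈ Z) (hne : z₁ ≠ z₂) {l a : ℝ} (hl : l ≠ 0)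
    (f : ∀ z ∈ Z, l * z + a ∈ Z) (g : ∀ z ∈ Z, (z - a) / l ∈ Z) : |l| = 1 := by
  by_contra hcon
  have hl1 : 1 - l ≠ 0 := by
    intro h0
    apply hcon
    have : l = 1 := by linarith
    rw [this, abs_one]
  obtain ⟨z, hz, hzc⟩ : ∃ z ∈ Z, z ≠ a / (1 - l) := by
    by_cases hh : z₁ = a / (1 - l)
    · exact ⟨z₂, h2, fun hh2 => hne (hh.trans hh2.symm)⟩
    · exact ⟨z₁, h1, hh⟩
  rcases lt_or_gt_of_ne hcon with hlt | hgt
  · refine real_aux hZ hz hzc hl hlt fun w hw => ?_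
    have h3 : a / (1 - l) + l * (w - a / (1 - l)) = l * w + a := by
      field_simp
      ring
    rw [h3]
    exact f w hw
  · refine real_aux hZ hz hzc (inv_ne_zero hl) ?_ fun w hw => ?_
    · rw [abs_inv]
      exact inv_lt_one_of_one_lt₀ hgt
    · have h3 : a / (1 - l) + l⁻¹ * (w - a / (1 - l)) = (w - a) / l := by
        field_simp
        ring
      rw [h3]
      exact g w hw

end Pool.Agent.H14.HR
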