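import Mathlib
import Pool.Agent.H14.HR.Defs
import Pool.Agent.H14.HR.LF
import Pool.Agent.H14.HR.Real

/-! HR5: the stabiliser of a coordinate line with two special points acts on it by isometries. -/

set_option autoImplicit false

namespace Pool.Agent.H14.HR

open NormedSpace Module Pool.Agent.H14.HP

variable {E : Type*} [NormedAddCommGroup E] [NormedSpace ℝ E]
  {Γ : Type*} [Group Γ] {π : Γ →* (E →L[ℝ] E)} {τ p : E →L[ℝ] ℝ}

/-- The elements `r` of the hypothesis are closed under inverses. -/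
private theorem iso_inv {m : ℕ} {h : Fin m → Γ} (i : Fin m) (r : Γ)
    (hr : ∀ j, j ≠ i → ∃ μ : ℝ, μ ≠ 0 ∧ ∀ y, p (π (h j) (π r y)) = μ * p (π (h j) y)) :
    ∀ j, j ≠ i → ∃ μ : ℝ, μ ≠ 0 ∧ ∀ y, p (π (h j) (π r⁻¹ y)) = μ * p (π (h j) y) := by
  intro j hj
  obtain ⟨μ, hμ, h1⟩ := hr j hj
  refine ⟨μ⁻¹, inv_ne_zero hμ, fun y => ?_⟩
  have h2 := h1 (π r⁻¹ y)
  rw [pi_inv'] at h2
  rw [h2, inv_mul_cancel_left₀ hμ]

/-- The action on the coordinate line. -/
private theorem iso_act (C : Cfg π τ p) {m : ℕ} {h : Fin m → Γ} {x₀ : E} {v : Fin m → E}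
    (F : Fr π τ p h x₀ v) (i : Fin m) (r : Γ)
    (hr : ∀ j, j ≠ i → ∃ μ : ℝ, μ ≠ 0 ∧ ∀ y, p (π (h j) (π r y)) = μ * p (π (h j) y))
    (g : Γ) (s z : ℝ) :
    p (π (g * r) (s • x₀ + z • v i)) = s * p (π g x₀) +
      (z * p (π (h i) (π r (v i))) + s * p (π (h i) (π r x₀))) * p (π g (v i)) := by
  rw [pi_mul, F.span g (π r (s • x₀ + z • v i)), Finset.sum_eq_single i]
  · rw [C.sys.tau]
    simp only [map_add, map_smul, smul_eq_mul, F.tx, F.tv]
    ring
  · intro j _ hj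
    obtain ⟨μ, -, h1⟩ := hr j hj
    rw [h1]
    simp only [map_add, map_smul, smul_eq_mul, F.px, F.pw i j hj]
    ring
  · intro hi
    exact absurd (Finset.mem_univ i) hi

/-- The special points of the line. -/
private def isoZ (π : Γ →* (E →L[ℝ] E)) (p : E →L[ℝ] ℝ) (x₀ w : E) : Set ℝ :=
  {z | ∃ g, p (π g w) ≠ 0 ∧ p (π g x₀) + z * p (π g w) = 0}

private theorem isoZ_fin (C : Cfg π τ p) {x₀ w : E} (hx : τ x₀ = 1) (hw : τ w = 0) (R : ℝ) :
    {z | z ∈ isoZ π p x₀ w ∧ |z| ≤ R}.Finite := by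
  obtain ⟨T, hT, h1⟩ := lf_fin C (‖x₀‖ + R * ‖w‖)
  refine (hT.image fun t => - p (π t x₀) / p (π t w)).subset ?_
  rintro z ⟨⟨g, hg, hz⟩, hzR⟩
  have e1 : p (π g (x₀ + z • w)) = 0 := by
    rw [map_add, map_add, map_smul, map_smul, smul_eq_mul]
    exact hz
  have e2 : τ (x₀ + z • w) = 1 := by
    rw [map_add, map_smul, hx, hw, smul_zero, add_zero]
  have e3 : ‖x₀ + z • w‖ ≤ ‖x₀‖ + R * ‖w‖ := by
    refine (norm_add_le _ _).trans ?_
    rw [norm_smul, Real.norm_eq_abs]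
    have := mul_le_mul_of_nonneg_right hzR (norm_nonneg w)
    linarith
  obtain ⟨t, ht, c, hc, h2⟩ := h1 g _ e2 e3 e1
  refine ⟨t, ht, ?_⟩
  rw [h2] at hg
  rw [h2, h2] at hz
  have hg' : p (π t w) ≠ 0 := right_ne_zero_of_mul hg
  have hz' : p (π t x₀) + z * p (π t w) = 0 := by
    have h3 : c * (p (π t x₀) + z * p (π t w)) = 0 := by linarith
    exact (mul_eq_zero.1 h3).resolve_left hc
  simp only
  rw [div_eq_iff hg']
  linarith

/-- The set of special points is invariant. -/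
private theorem isoZ_move (C : Cfg π τ p) {m : ℕ} {h : Fin m → Γ} {x₀ : E} {v : Fin m → E}
    (F : Fr π τ p h x₀ v) (i : Fin m) (r : Γ)
    (hr : ∀ j, j ≠ i → ∃ μ : ℝ, μ ≠ 0 ∧ ∀ y, p (π (h j) (π r y)) = μ * p (π (h j) y))
    (hl : p (π (h i) (π r (v i))) ≠ 0) {z : ℝ} (hz : z ∈ isoZ π p x₀ (v i)) :
    (z - p (π (h i) (π r x₀))) / p (π (h i) (π r (v i))) ∈ isoZ π p x₀ (v i) := by
  obtain ⟨g, hg, hz⟩ := hz
  have e1 := iso_act C F i r hr g 0 1
  have e2 := iso_act C F i r hr g 1 0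
  simp only [zero_smul, one_smul, zero_add, add_zero, zero_mul, one_mul] at e1 e2
  refine ⟨g * r, ?_, ?_⟩
  · rw [e1]
    exact mul_ne_zero hl hg
  · rw [e1, e2]
    field_simp
    linarith

theorem line_iso (C : Cfg π τ p) {m : ℕ} {h : Fin m → Γ} {x₀ : E} {v : Fin m → E}
    (F : Fr π τ p h x₀ v) (i : Fin m)
    (hz : ∃ g, p (π g (v i)) ≠ 0 ∧ p (π g x₀) ≠ 0) (r : Γ)
    (hr : ∀ j, j ≠ i → ∃ μ : ℝ, μ ≠ 0 ∧ ∀ y, p (π (h j) (π r y)) = μ * p (π (h j) y)) :
    |p (π (h i) (π r (v i)))| = 1 := by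
  have hr' := iso_inv (p := p) i r hr
  -- the parameters of the inverse
  have e1 := iso_act C F i r⁻¹ hr' (h i * r) 0 1
  have e2 := iso_act C F i r⁻¹ hr' (h i * r) 1 0
  simp only [zero_smul, one_smul, zero_add, add_zero, zero_mul, one_mul,
    mul_inv_cancel_right, F.pv, F.px] at e1 e2
  rw [pi_mul] at e1
  rw [pi_mul, pi_mul] at e2
  set l := p (π (h i) (π r (v i))) with hl
  set a := p (π (h i) (π r x₀)) with ha
  set l' := p (π (h i) (π r⁻¹ (v i))) with hl'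
  set a' := p (π (h i) (π r⁻¹ x₀)) with ha'
  have hl0 : l ≠ 0 := by
    intro h0
    rw [h0, mul_zero] at e1
    exact one_ne_zero e1
  have hl0' : l' ≠ 0 := by
    intro h0
    rw [h0, zero_mul] at e1
    exact one_ne_zero e1
  obtain ⟨g, hg1, hg2⟩ := hz
  refine real_iso (Z := isoZ π p x₀ (v i)) (isoZ_fin C F.tx (F.tv i)) (z₁ := 0)
    (z₂ := - p (π g x₀) / p (π g (v i))) ?_ ?_ ?_ (l := l) (a := a) hl0 ?_ ?_
  · refine ⟨h i, ?_, ?_⟩
    · rw [F.pv]
      exact one_ne_zero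
    · rw [F.px, zero_mul, add_zero]
  · refine ⟨g, hg1, ?_⟩
    rw [div_mul_cancel₀ _ hg1]
    ring
  · intro h0
    have h1 := (eq_div_iff hg1).1 h0
    rw [zero_mul] at h1
    apply hg2
    linarith
  · intro z hz
    have h1 := isoZ_move C F i r⁻¹ hr' hl0' hz
    have h2 : (z - a') / l' = l * z + a := by
      rw [div_eq_iff hl0']
      have h3 : a' = a' * (l' * l) := by rw [← e1, mul_one]
      have h4 : a' * l = - a := by linarith
      have h5 : z = z * (l' * l) := by rw [← e1, mul_one]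
      calc z - a' = z * (l' * l) - a' * (l' * l) := by rw [← h5, ← h3]
        _ = z * (l' * l) - (a' * l) * l' := by ring
        _ = (l * z + a) * l' := by rw [h4]; ring
    rw [← h2]
    exact h1
  · intro z hz
    exact isoZ_move C F i r hr hl0 hz

end Pool.Agent.H14.HR
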