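import Mathlib
import Pool.Agent.H14.HR.Defs
import Pool.Agent.H14.HR.Coc
import Pool.Agent.H14.HR.Iso

/-! HR6: a translation along a coordinate line. -/

set_option autoImplicit false

namespace Pool.Agent.H14.HR

open NormedSpace Module Pool.Agent.H14.HP

variable {E : Type*} [NormedAddCommGroup E] [NormedSpace ℝ E]
  {Γ : Type*} [Group Γ] {π : Γ →* (E →L[ℝ] E)} {τ p : E →L[ℝ] ℝ}

private theorem trans_eval {m : ℕ} {h : Fin m → Γ} {x₀ : E} {v : Fin m → E}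
    (F : Fr π τ p h x₀ v) (i : Fin m) (g : Γ) (z : E) (hz : ∀ j, j ≠ i → p (π (h j) z) = 0) :
    p (π (h i) (π g z)) = p (π (h i) (π g x₀)) * τ z +
      p (π (h i) (π g (v i))) * p (π (h i) z) := by
  have h1 := F.span (h i * g) z
  rw [pi_mul, pi_mul] at h1
  rw [h1, Finset.sum_eq_single i]
  · rw [pi_mul]
  · intro j _ hj
    rw [hz j hj, mul_zero]
  · intro hi
    exact absurd (Finset.mem_univ i) hi

theorem line_trans (C : Cfg π τ p) {m : ℕ} {h : Fin m → Γ} {x₀ : E} {v : Fin m → E}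
    (F : Fr π τ p h x₀ v) (i : Fin m) (hm : ∃ j, j ≠ i)
    (hz : ∃ g, p (π g (v i)) ≠ 0 ∧ p (π g x₀) ≠ 0) :
    ∃ r : Γ, (∀ j, j ≠ i → ∃ μ : ℝ, μ ≠ 0 ∧ ∀ y, p (π (h j) (π r y)) = μ * p (π (h j) y)) ∧
      p (π (h i) (π r (v i))) = 1 ∧ p (π (h i) (π r x₀)) ≠ 0 := by
  obtain ⟨R, hR⟩ := coc_line C h i hm
  obtain ⟨R1, hR1⟩ : ∃ R1 : ℝ, R1 = ‖p.comp (π (h i))‖ * |R| := ⟨_, rfl⟩
  have hR0 : 0 ≤ R1 := by rw [hR1]; positivity
  have key : ∀ t : ℝ, ∃ g : Γ,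
      (∀ j, j ≠ i → ∃ μ : ℝ, μ ≠ 0 ∧ ∀ y, p (π (h j) (π g y)) = μ * p (π (h j) y)) ∧
      |p (π (h i) (π g x₀)) + t * p (π (h i) (π g (v i)))| ≤ R1 ∧
      |p (π (h i) (π g (v i)))| = 1 := by
    intro t
    obtain ⟨g, hg, hgR⟩ := hR (x₀ + t • v i) (by simp [F.tx, F.tv]) (by
      intro j hj
      simp [F.px, F.pw i j hj])
    refine ⟨g, hg, ?_, line_iso C F i hz g hg⟩
    have h1 : p (π (h i) (π g x₀)) + t * p (π (h i) (π g (v i))) =
        (p.comp (π (h i))) (π g (x₀ + t • v i)) := by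
      simp
    rw [h1, hR1, ← Real.norm_eq_abs]
    refine (ContinuousLinearMap.le_opNorm _ _).trans ?_
    exact mul_le_mul_of_nonneg_left (hgR.trans (le_abs_self R)) (norm_nonneg _)
  obtain ⟨g, hg, hga, hgl⟩ := key (R1 + 1)
  have ha : 1 ≤ |p (π (h i) (π g x₀))| := by
    rcases abs_eq (zero_le_one' ℝ) |>.1 hgl with hl | hl
    · rw [hl, mul_one, abs_le] at hga
      rw [le_abs]
      right
      linarith [hga.2]
    · rw [hl, abs_le] at hga
      rw [le_abs]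
      left
      linarith [hga.1]
  have ha0 : p (π (h i) (π g x₀)) ≠ 0 := by
    intro h0
    rw [h0, abs_zero] at ha
    linarith
  rcases abs_eq (zero_le_one' ℝ) |>.1 hgl with hl | hl
  · exact ⟨g, hg, hl, ha0⟩
  obtain ⟨g', hg', hga', hgl'⟩ := key (R1 + |p (π (h i) (π g x₀))| + 1)
  have ha' : |p (π (h i) (π g x₀))| + 1 ≤ |p (π (h i) (π g' x₀))| := by
    rcases abs_eq (zero_le_one' ℝ) |>.1 hgl' with hl' | hl'
    · rw [hl', mul_one, abs_le] at hga'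
      have : |p (π (h i) (π g x₀))| + 1 ≤ -p (π (h i) (π g' x₀)) := by linarith [hga'.2]
      exact this.trans (neg_le_abs _)
    · rw [hl', abs_le] at hga'
      have : |p (π (h i) (π g x₀))| + 1 ≤ p (π (h i) (π g' x₀)) := by linarith [hga'.1]
      exact this.trans (le_abs_self _)
  rcases abs_eq (zero_le_one' ℝ) |>.1 hgl' with hl' | hl'
  · refine ⟨g', hg', hl', fun h0 => ?_⟩
    rw [h0, abs_zero] at ha'
    linarith [abs_nonneg (p (π (h i) (π g x₀)))]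
  have hv : ∀ j, j ≠ i → p (π (h j) (π g' (v i))) = 0 := by
    intro j hj
    obtain ⟨μ, -, hμ⟩ := hg' j hj
    rw [hμ, F.pw i j hj, mul_zero]
  have hx : ∀ j, j ≠ i → p (π (h j) (π g' x₀)) = 0 := by
    intro j hj
    obtain ⟨μ, -, hμ⟩ := hg' j hj
    rw [hμ, F.px, mul_zero]
  refine ⟨g * g', fun j hj => ?_, ?_, ?_⟩
  · obtain ⟨μ, hμ0, hμ⟩ := hg j hj
    obtain ⟨ν, hν0, hν⟩ := hg' j hj
    refine ⟨μ * ν, mul_ne_zero hμ0 hν0, fun y => ?_⟩
    rw [pi_mul, hμ, hν, mul_assoc]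
  · rw [pi_mul, trans_eval F i g _ hv, C.sys.tau, F.tv, hl, hl']
    norm_num
  · rw [pi_mul, trans_eval F i g _ hx, C.sys.tau, F.tx, hl]
    intro h0
    have h1 : p (π (h i) (π g x₀)) = p (π (h i) (π g' x₀)) := by linarith
    rw [← h1] at ha'
    linarith

end Pool.Agent.H14.HR
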