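import Mathlib
import Pool.Agent.H14.HR.Defs
import Pool.Agent.H14.HR.Frame
import Pool.Agent.H14.HR.LF
import Pool.Agent.H14.HR.Trans
import Pool.Agent.H14.HR.Good

/-! HR8: finitely many directions. -/

set_option autoImplicit false

namespace Pool.Agent.H14.HR

open NormedSpace Module Pool.Agent.H14.HP

variable {E : Type*} [NormedAddCommGroup E] [NormedSpace ℝ E]
  {Γ : Type*} [Group Γ] {π : Γ →* (E →L[ℝ] E)} {τ p : E →L[ℝ] ℝ}

private theorem dir_ne (C : Cfg π τ p) {m : ℕ} {h : Fin m → Γ} {x₀ : E} {v : Fin m → E}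
    (F : Fr π τ p h x₀ v) (g : Γ) : ∃ i, p (π g (v i)) ≠ 0 := by
  by_contra hn
  push Not at hn
  obtain ⟨y, hy⟩ := C.ind (p (π g x₀))
  apply hy
  have h1 := F.span g (π g⁻¹ y)
  rw [pi_inv', C.sys.tau] at h1
  rw [h1]
  simp [hn]

private theorem dir_pow {r : Γ} {q : E →L[ℝ] ℝ} {ν : ℝ} (hr : ∀ y, q (π r y) = ν * q y) (k : ℕ)
    (y : E) : q (π (r ^ k) y) = ν ^ k * q y := by
  induction k with
  | zero => rw [pow_zero, map_one, pow_zero, one_mul]; rfl
  | succ k ih =>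
    rw [pow_succ', pi_mul, hr, ih, pow_succ']
    ring

/-- A group element that stretches the functional `q_(h j)` cannot exist if `q_(h j) + al τ` is
one of the functionals. -/
private theorem dir_no (C : Cfg π τ p) {x₀ w : E} (tx : τ x₀ = 1) (tw : τ w = 0) {hj : Γ}
    (px : p (π hj x₀) = 0) (pv : p (π hj w) = 1) {g : Γ} {al : ℝ} (hal : al ≠ 0)
    (hg : ∀ y, p (π g y) = p (π hj y) + al * τ y) {r : Γ} {ν : ℝ} (hν : 1 < ν)
    (hr : ∀ y, p (π hj (π r y)) = ν * p (π hj y)) : False := by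
  have hν0 : 0 < ν := by linarith
  have hpw : ∀ (k : ℕ) (y : E), p (π hj (π (r ^ k) y)) = ν ^ k * p (π hj y) := fun k y =>
    dir_pow (q := p.comp (π hj)) hr k y
  have hgk : ∀ (k : ℕ) (y : E), p (π (g * r ^ k) y) = ν ^ k * p (π hj y) + al * τ y := by
    intro k y
    rw [pi_mul, hg, hpw, C.sys.tau]
  obtain ⟨k, l, hkl, c, -, hc⟩ := lf_seq C (‖x₀‖ + |al| * ‖w‖) (fun k => g * r ^ k)
    (fun k => x₀ - (al * (ν ^ k)⁻¹) • w) (by
      intro k
      simp [tx, tw]) (by
      intro k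
      have h1 : ‖(al * (ν ^ k)⁻¹) • w‖ ≤ |al| * ‖w‖ := by
        rw [norm_smul, Real.norm_eq_abs, abs_mul, abs_of_pos (inv_pos.2 (pow_pos hν0 k))]
        have h2 : (ν ^ k)⁻¹ ≤ 1 := inv_le_one_of_one_le₀ (one_le_pow₀ hν.le)
        have h3 := abs_nonneg al
        have h4 := norm_nonneg w
        have h5 : |al| * (ν ^ k)⁻¹ ≤ |al| := by nlinarith
        exact mul_le_mul_of_nonneg_right h5 h4
      exact (norm_sub_le _ _).trans (by linarith)) (by
      intro k
      have h1 : ν ^ k ≠ 0 := (pow_pos hν0 k).ne'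
      show p (π (g * r ^ k) (x₀ - (al * (ν ^ k)⁻¹) • w)) = 0
      rw [hgk]
      simp only [map_sub, map_smul, smul_eq_mul, tx, tw, px, pv]
      field_simp
      ring)
  have h1 := hc x₀
  have h2 := hc w
  simp only [hgk, px, pv, tx, tw, mul_zero, zero_add, mul_one, add_zero] at h1 h2
  have h3 : c = 1 := by
    have h4 : al * 1 = al * c := by rw [mul_one]; linarith
    exact (mul_left_cancel₀ hal h4).symm
  rw [h3, one_mul] at h2
  exact hkl (pow_right_injective₀ hν0 hν.ne' h2)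

theorem fin_dir [FiniteDimensional ℝ E] (C : Cfg π τ p)
    (ht : ∃ x, τ x = 1) : FinDir π τ p := by
  obtain ⟨m, h, x₀, v, hm, F⟩ := exists_frame C ht
  by_cases hA : ∀ g i, ¬ (p (π g (v i)) ≠ 0 ∧ p (π g x₀) ≠ 0)
  · obtain ⟨T, hT, hT'⟩ := lf_fin C ‖x₀‖
    refine ⟨T, hT, fun g => ?_⟩
    obtain ⟨i, hi⟩ := dir_ne C F g
    have h0 : p (π g x₀) = 0 := by
      by_contra hn
      exact hA g i ⟨hi, hn⟩
    obtain ⟨t, htT, c, hc, hy⟩ := hT' g x₀ F.tx le_rfl h0
    exact ⟨t, htT, c, 0, hc, fun y => by rw [hy y, zero_mul, add_zero]⟩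
  push Not at hA
  obtain ⟨g₀, i₀, h1, h2⟩ := hA
  by_cases hone : ∃ j, j ≠ i₀
  swap
  · push Not at hone
    refine ⟨{h i₀}, Set.finite_singleton _, fun g => ⟨h i₀, rfl, p (π g (v i₀)), p (π g x₀),
      ?_, fun y => ?_⟩⟩
    · obtain ⟨i, hi⟩ := dir_ne C F g
      rwa [hone i] at hi
    · rw [F.span g y, Finset.sum_eq_single i₀]
      · ring
      · intro j _ hj
        exact absurd (hone j) hj
      · intro hn
        exact absurd (Finset.mem_univ _) hn
  have hne : ∀ i : Fin m, ∃ j, j ≠ i := by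
    intro i
    by_cases hi : i = i₀
    · rw [hi]; exact hone
    · exact ⟨i₀, fun h => hi h.symm⟩
  obtain ⟨r₀, hr₀, k1, k2⟩ := line_trans C F i₀ hone ⟨g₀, h1, h2⟩
  obtain ⟨s₀, al, hal, hs₀, -⟩ := line_good C F i₀ r₀ hr₀ k1 k2
  have hpar : ∀ i : Fin m, ∃ g : Γ, ∀ y, p (π g y) = p (π (h i) y) + al * τ y := by
    intro i
    refine ⟨h i₀ * s₀ * ((h i₀)⁻¹ * h i), fun y => ?_⟩
    rw [mul_assoc, pi_mul π (h i₀), pi_mul π s₀, hs₀, C.sys.tau, ← pi_mul π (h i₀),
      mul_inv_cancel_left]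
  have hstar : ∀ i : Fin m, ∃ g, p (π g (v i)) ≠ 0 ∧ p (π g x₀) ≠ 0 := by
    intro i
    obtain ⟨g, hg⟩ := hpar i
    refine ⟨g, ?_, ?_⟩
    · rw [hg, F.pv, F.tv]; simp
    · rw [hg, F.px, F.tx]; simpa using hal
  have hex : ∀ i : Fin m, ∃ s : Γ, ∃ α : ℝ, α ≠ 0 ∧
      (∀ y, p (π (h i) (π s y)) = p (π (h i) y) + α * τ y) ∧
      ∀ j, j ≠ i → ∃ μ : ℝ, 0 < μ ∧ ∀ y, p (π (h j) (π s y)) = μ * p (π (h j) y) := by
    intro i
    obtain ⟨r, hr, k1, k2⟩ := line_trans C F i (hne i) (hstar i)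
    exact line_good C F i r hr k1 k2
  choose s α hα hs hμ using hex
  -- the coefficients are one
  have hfix : ∀ i j, j ≠ i → ∀ y, p (π (h j) (π (s i) y)) = p (π (h j) y) := by
    intro i j hj
    obtain ⟨μ, hμ0, hμy⟩ := hμ i j hj
    obtain ⟨g, hg⟩ := hpar j
    rcases lt_trichotomy μ 1 with h3 | h3 | h3
    · exfalso
      refine dir_no C F.tx (F.tv j) (F.px j) (F.pv j) hal hg (r := (s i)⁻¹) (ν := μ⁻¹)
        ((one_lt_inv₀ hμ0).2 h3) fun y => ?_
      have h4 := hμy (π (s i)⁻¹ y)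
      rw [pi_inv'] at h4
      rw [h4, inv_mul_cancel_left₀ hμ0.ne']
    · intro y
      rw [hμy, h3, one_mul]
    · exact absurd (dir_no C F.tx (F.tv j) (F.px j) (F.pv j) hal hg h3 hμy) id
  -- powers of `s i`
  have hpowN : ∀ (i : Fin m) (k : ℕ) (y : E),
      p (π (h i) (π (s i ^ k) y)) = p (π (h i) y) + k * α i * τ y := by
    intro i k
    induction k with
    | zero =>
      intro y
      rw [pow_zero, map_one]
      simp
    | succ k ih =>
      intro y
      rw [pow_succ', pi_mul, hs, ih, C.sys.tau]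
      push_cast
      ring
  have hfixN : ∀ (i j : Fin m), j ≠ i → ∀ (k : ℕ) (y : E),
      p (π (h j) (π (s i ^ k) y)) = p (π (h j) y) := by
    intro i j hj k
    induction k with
    | zero =>
      intro y
      rw [pow_zero, map_one]
      rfl
    | succ k ih =>
      intro y
      rw [pow_succ', pi_mul, hfix i j hj, ih]
  have hpowZ : ∀ (i : Fin m) (k : ℤ) (y : E),
      p (π (h i) (π (s i ^ k) y)) = p (π (h i) y) + k * α i * τ y := by
    intro i k y
    obtain ⟨n, rfl | rfl⟩ := k.eq_nat_or_neg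
    · rw [zpow_natCast, hpowN]
      simp
    · have h4 := hpowN i n (π (s i ^ (-(n : ℤ))) y)
      rw [zpow_neg, zpow_natCast, pi_inv', C.sys.tau] at h4
      rw [zpow_neg, zpow_natCast]
      push_cast
      linarith
  have hfixZ : ∀ (i j : Fin m), j ≠ i → ∀ (k : ℤ) (y : E),
      p (π (h j) (π (s i ^ k) y)) = p (π (h j) y) := by
    intro i j hj k y
    obtain ⟨n, rfl | rfl⟩ := k.eq_nat_or_neg
    · rw [zpow_natCast, hfixN i j hj]
    · have h4 := hfixN i j hj n (π (s i ^ (-(n : ℤ))) y)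
      rw [zpow_neg, zpow_natCast, pi_inv'] at h4
      rw [zpow_neg, zpow_natCast]
      exact h4.symm
  have hall : ∀ (g : Γ) (i : Fin m) (k : ℤ) (y : E),
      p (π (g * s i ^ k) y) = p (π g y) + k * α i * p (π g (v i)) * τ y := by
    intro g i k y
    rw [pi_mul, F.span g (π (s i ^ k) y), F.span g y, C.sys.tau]
    have h5 : ∑ j, p (π g (v j)) * p (π (h j) (π (s i ^ k) y)) =
        ∑ j, (p (π g (v j)) * p (π (h j) y) +
          if j = i then k * α i * p (π g (v i)) * τ y else 0) := by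
      refine Finset.sum_congr rfl fun j _ => ?_
      by_cases hj : j = i
      · subst hj
        rw [hpowZ, if_pos rfl]
        ring
      · rw [hfixZ i j hj, if_neg hj, add_zero]
    rw [h5, Finset.sum_add_distrib, Finset.sum_ite_eq' Finset.univ i, if_pos (Finset.mem_univ i)]
    ring
  set R : ℝ := ‖x₀‖ + ∑ i, |α i| * ‖v i‖ with hR
  obtain ⟨T, hT, hT'⟩ := lf_fin C R
  refine ⟨T, hT, fun g => ?_⟩
  obtain ⟨i, hi⟩ := dir_ne C F g
  set c : ℝ := p (π g (v i)) with hc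
  have hac : α i * c ≠ 0 := mul_ne_zero (hα i) hi
  set k : ℤ := -⌊p (π g x₀) / (α i * c)⌋ with hk
  set f : ℝ := Int.fract (p (π g x₀) / (α i * c)) with hf
  have hval : p (π g x₀) + k * α i * c = α i * c * f := by
    have h6 : f = p (π g x₀) / (α i * c) - ⌊p (π g x₀) / (α i * c)⌋ := rfl
    have h7 : α i * c * (p (π g x₀) / (α i * c)) = p (π g x₀) := mul_div_cancel₀ _ hac
    rw [h6, hk]
    push_cast
    linear_combination -h7
  have hx : ‖x₀ - (α i * f) • v i‖ ≤ R := by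
    refine (norm_sub_le _ _).trans ?_
    rw [hR]
    have h7 : ‖(α i * f) • v i‖ ≤ |α i| * ‖v i‖ := by
      have h0 : 0 ≤ f := Int.fract_nonneg _
      rw [norm_smul, Real.norm_eq_abs, abs_mul, abs_of_nonneg h0]
      have h8 := (Int.fract_lt_one (p (π g x₀) / (α i * c))).le
      have h9 := abs_nonneg (α i)
      have h10 := norm_nonneg (v i)
      have h11 : |α i| * f ≤ |α i| := by
        calc |α i| * f ≤ |α i| * 1 := mul_le_mul_of_nonneg_left h8 h9
          _ = |α i| := mul_one _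
      exact mul_le_mul_of_nonneg_right h11 h10
    have h12 : |α i| * ‖v i‖ ≤ ∑ i, |α i| * ‖v i‖ :=
      Finset.single_le_sum (f := fun i => |α i| * ‖v i‖) (fun j _ => by positivity)
        (Finset.mem_univ i)
    linarith
  obtain ⟨t, htT, c', hc', hy⟩ := hT' (g * s i ^ k) (x₀ - (α i * f) • v i)
    (by simp [F.tx, F.tv]) hx (by
      rw [hall]
      simp only [map_sub, map_smul, smul_eq_mul, F.tx, F.tv, ← hc]
      linear_combination hval)
  refine ⟨t, htT, c', -(k * α i * c), hc', fun y => ?_⟩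
  have h13 := hall g i k y
  rw [hy y] at h13
  linear_combination -h13

end Pool.Agent.H14.HR
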