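import Mathlib
import Pool.Agent.H14.HR.Defs

/-! HR9: from finitely many directions to the quotient. -/

set_option autoImplicit false

namespace Pool.Agent.H14.HR

open NormedSpace Module Pool.Agent.H14.HP
open scoped commutatorElement

variable {E : Type*} [NormedAddCommGroup E] [NormedSpace ℝ E]
  {Γ : Type*} [Group Γ] {π : Γ →* (E →L[ℝ] E)} {τ p : E →L[ℝ] ℝ}

/-- Two functionals of the orbit have the same direction. -/
private def IdxR (π : Γ →* (E →L[ℝ] E)) (τ p : E →L[ℝ] ℝ) (g g' : Γ) : Prop :=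
  ∃ c s : ℝ, c ≠ 0 ∧ ∀ y, p (π g y) = c * p (π g' y) + s * τ y

private theorem IdxR_refl (g : Γ) : IdxR π τ p g g :=
  ⟨1, 0, one_ne_zero, fun y => by ring⟩

private theorem IdxR_symm {g g' : Γ} (h : IdxR π τ p g g') : IdxR π τ p g' g := by
  obtain ⟨c, s, hc, h1⟩ := h
  refine ⟨c⁻¹, -(c⁻¹ * s), inv_ne_zero hc, fun y => ?_⟩
  rw [h1 y]
  field_simp
  ring

private theorem IdxR_trans {g g' g'' : Γ} (h : IdxR π τ p g g') (h' : IdxR π τ p g' g'') :
    IdxR π τ p g g'' := by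
  obtain ⟨c, s, hc, h1⟩ := h
  obtain ⟨c', s', hc', h1'⟩ := h'
  refine ⟨c * c', c * s' + s, mul_ne_zero hc hc', fun y => ?_⟩
  rw [h1 y, h1' y]
  ring

private theorem IdxR_mul (hτ : ∀ g y, τ (π g y) = τ y) {g g' : Γ} (h : IdxR π τ p g g')
    (k : Γ) : IdxR π τ p (g * k) (g' * k) := by
  obtain ⟨c, s, hc, h1⟩ := h
  refine ⟨c, s, hc, fun y => ?_⟩
  rw [pi_mul, pi_mul, h1, hτ]

/-- The subgroup that preserves all directions. -/
private def IdxG (π : Γ →* (E →L[ℝ] E)) (τ p : E →L[ℝ] ℝ) : Subgroup Γ where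
  carrier := {k | ∀ h, IdxR π τ p (h * k) h}
  one_mem' := fun h => by
    rw [mul_one]
    exact IdxR_refl h
  mul_mem' := by
    intro k k' h1 h2 h
    rw [← mul_assoc]
    exact IdxR_trans (h2 (h * k)) (h1 h)
  inv_mem' := by
    intro k h1 h
    have h2 := h1 (h * k⁻¹)
    rw [inv_mul_cancel_right] at h2
    exact IdxR_symm h2

private theorem IdxG_fin (hτ : ∀ g y, τ (π g y) = τ y) (hdir : FinDir π τ p) :
    (IdxG π τ p).FiniteIndex := by
  obtain ⟨T, hT, hrep⟩ := hdir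
  have : Finite T := hT
  have hrep' : ∀ g, ∃ t : T, IdxR π τ p g t := by
    intro g
    obtain ⟨t, ht, c, s, hc, h1⟩ := hrep g
    exact ⟨⟨t, ht⟩, c, s, hc, h1⟩
  choose rep hr using hrep'
  have key : ∀ k k' : Γ, (fun t : T => rep (t * k)) = (fun t : T => rep (t * k')) →
      k * k'⁻¹ ∈ IdxG π τ p := by
    intro k k' hkk h
    have e1 : IdxR π τ p (h * k) (rep h * k) := IdxR_mul hτ (hr h) k
    have e2 : IdxR π τ p (h * k') (rep h * k') := IdxR_mul hτ (hr h) k'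
    have e3 : rep (rep h * k) = rep (rep h * k') := congrFun hkk (rep h)
    have e4 : IdxR π τ p (h * k) (h * k') := by
      refine IdxR_trans e1 (IdxR_trans (hr _) ?_)
      rw [e3]
      exact IdxR_symm (IdxR_trans e2 (hr _))
    have e5 := IdxR_mul hτ e4 k'⁻¹
    rw [mul_inv_cancel_right, mul_assoc] at e5
    exact e5
  have hfin : Finite (Γ ⧸ IdxG π τ p) := by
    refine Finite.of_injective
      (fun x : Γ ⧸ IdxG π τ p => (fun t : T => rep (t * (Quotient.out x)⁻¹))) ?_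
    intro x x' hxx
    have h1 := key _ _ hxx
    rw [inv_inv] at h1
    have h2 : ((Quotient.out x : Γ) : Γ ⧸ IdxG π τ p) = (Quotient.out x' : Γ) :=
      QuotientGroup.eq.2 h1
    rw [QuotientGroup.out_eq', QuotientGroup.out_eq'] at h2
    exact h2
  exact Subgroup.finiteIndex_of_finite_quotient

theorem fin_idx2 (C : Cfg π τ p) (hdir : FinDir π τ p) :
    ∃ G : Subgroup Γ, G.FiniteIndex ∧ ∀ g ∈ G, ∀ h, ∃ μ α : ℝ,
      ∀ y, p (π h (π g y)) = μ * p (π h y) + α * τ y := by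
  refine ⟨IdxG π τ p, IdxG_fin C.sys.tau hdir, ?_⟩
  intro g hg h
  obtain ⟨c, s, _, h1⟩ := hg h
  refine ⟨c, s, fun y => ?_⟩
  rw [← pi_mul]
  exact h1 y

/-- A functional that is not a multiple of `τ` has a dual vector in the kernel of `τ`. -/
private theorem Idx_dual {τ q : E →L[ℝ] ℝ} (hq : ∀ s : ℝ, ∃ y, q y ≠ s * τ y) :
    ∃ v, τ v = 0 ∧ q v = 1 := by
  by_contra hcon
  have h0 : ∀ v, τ v = 0 → q v = 0 := by
    intro v hv
    by_contra hne
    apply hcon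
    refine ⟨(q v)⁻¹ • v, ?_, ?_⟩
    · rw [map_smul, hv, smul_zero]
    · rw [map_smul, smul_eq_mul, inv_mul_cancel₀ hne]
  by_cases hx : ∃ x, τ x ≠ 0
  · obtain ⟨x, hx⟩ := hx
    obtain ⟨y, hy⟩ := hq (q x / τ x)
    apply hy
    have h1 : q (y - (τ y / τ x) • x) = 0 := by
      apply h0
      rw [map_sub, map_smul, smul_eq_mul, div_mul_cancel₀ _ hx, sub_self]
    rw [map_sub, map_smul, smul_eq_mul, sub_eq_zero] at h1
    rw [h1]
    ring
  · push Not at hx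
    obtain ⟨y, hy⟩ := hq 0
    apply hy
    rw [h0 y (hx y), zero_mul]

/-- The subgroup that fixes a functional up to a multiple of `τ`. -/
private def IdxK1 (π : Γ →* (E →L[ℝ] E)) (τ q : E →L[ℝ] ℝ)
    (hτ : ∀ g y, τ (π g y) = τ y) : Subgroup Γ where
  carrier := {g | ∃ α : ℝ, ∀ y, q (π g y) = q y + α * τ y}
  one_mem' := ⟨0, fun y => by rw [map_one, zero_mul, add_zero]; rfl⟩
  mul_mem' := by
    rintro g h ⟨a, h1⟩ ⟨b, h2⟩
    exact ⟨a + b, fun y => by rw [pi_mul, h1, h2, hτ]; ring⟩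
  inv_mem' := by
    rintro g ⟨a, h1⟩
    refine ⟨-a, fun y => ?_⟩
    have h2 := h1 (π g⁻¹ y)
    rw [pi_inv', hτ] at h2
    rw [h2]
    ring

/-- The subgroup that fixes a functional. -/
private def IdxK2 (π : Γ →* (E →L[ℝ] E)) (q : E →L[ℝ] ℝ) : Subgroup Γ where
  carrier := {g | ∀ y, q (π g y) = q y}
  one_mem' := fun y => by rw [map_one]; rfl
  mul_mem' := by
    intro g h h1 h2 y
    rw [pi_mul, h1, h2]
  inv_mem' := by
    intro g h1 y
    have h2 := h1 (π g⁻¹ y)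
    rw [pi_inv'] at h2
    exact h2.symm

private theorem Idx_comm (g h : Γ) (y : E) :
    π ⁅g, h⁆ (π h (π g y)) = π g (π h y) := by
  rw [← pi_mul, ← pi_mul, ← pi_mul]
  congr 2
  rw [commutatorElement_def]
  group

private theorem Idx_one (hτ : ∀ g y, τ (π g y) = τ y) (G : Subgroup Γ) (q : E →L[ℝ] ℝ)
    (hq : ∀ s : ℝ, ∃ y, q y ≠ s * τ y)
    (hG : ∀ g ∈ G, ∃ μ α : ℝ, ∀ y, q (π g y) = μ * q y + α * τ y) :
    derivedSeries G 2 ≤ (IdxK2 π q).comap G.subtype := by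
  obtain ⟨v, hv1, hv2⟩ := Idx_dual hq
  have hne : ∀ g : Γ, ∀ μ α : ℝ, (∀ y, q (π g y) = μ * q y + α * τ y) → μ ≠ 0 := by
    intro g μ α h1 h0
    obtain ⟨y, hy⟩ := hq α
    apply hy
    have h2 := h1 (π g⁻¹ y)
    rw [pi_inv', h0, zero_mul, zero_add, hτ] at h2
    exact h2
  have hD1 : derivedSeries G 1 ≤ (IdxK1 π τ q hτ).comap G.subtype := by
    rw [derivedSeries_succ, Subgroup.commutator_le]
    intro a _ b _
    rw [Subgroup.mem_comap, map_commutatorElement]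
    obtain ⟨μ₁, α₁, h1⟩ := hG a a.2
    obtain ⟨μ₂, α₂, h2⟩ := hG b b.2
    obtain ⟨μ, α, h3⟩ := hG ⁅(a : Γ), (b : Γ)⁆ (⁅a, b⁆ : G).2
    have n1 := hne _ _ _ h1
    have n2 := hne _ _ _ h2
    have h4 := h3 (π (b : Γ) (π (a : Γ) v))
    rw [Idx_comm, h1, h2, h2, h1] at h4
    simp only [hτ, hv1, hv2] at h4
    have h5 : μ = 1 := by
      have h6 : (μ - 1) * (μ₁ * μ₂) = 0 := by
        linarith [h4]
      rcases mul_eq_zero.1 h6 with h7 | h7
      · linarith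
      · exact absurd h7 (mul_ne_zero n1 n2)
    refine ⟨α, fun y => ?_⟩
    have h8 := h3 y
    rw [h5, one_mul] at h8
    exact h8
  rw [derivedSeries_succ, Subgroup.commutator_le]
  intro a ha b hb
  rw [Subgroup.mem_comap, map_commutatorElement]
  obtain ⟨α₁, h1⟩ := hD1 ha
  obtain ⟨α₂, h2⟩ := hD1 hb
  intro y
  have h3 : y = π (G.subtype b) (π (G.subtype a) (π (G.subtype a)⁻¹ (π (G.subtype b)⁻¹ y))) := by
    rw [pi_inv', pi_inv']
  generalize π (G.subtype a)⁻¹ (π (G.subtype b)⁻¹ y) = z at h3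
  rw [h3, Idx_comm, h1, h2, h2, h1, hτ, hτ]
  ring

theorem ds_le (C : Cfg π τ p) (G : Subgroup Γ)
    (hG : ∀ g ∈ G, ∀ h, ∃ μ α : ℝ, ∀ y, p (π h (π g y)) = μ * p (π h y) + α * τ y) :
    (derivedSeries G 2).map G.subtype ≤ KK π p := by
  rw [Subgroup.map_le_iff_le_comap]
  intro x hx
  rw [Subgroup.mem_comap]
  intro h y
  have hq : ∀ s : ℝ, ∃ y, (p.comp (π h)) y ≠ s * τ y := by
    intro s
    obtain ⟨y, hy⟩ := C.ind s
    refine ⟨π h⁻¹ y, fun h1 => hy ?_⟩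
    rw [ContinuousLinearMap.comp_apply, pi_inv', C.sys.tau] at h1
    exact h1
  have h1 := Idx_one C.sys.tau G (p.comp (π h)) hq (fun g hg => hG g hg h) hx
  exact h1 y

end Pool.Agent.H14.HR
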