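import Mathlib
import Pool.Agent.H14.HR.Defs
import Pool.Agent.H14.HR.Dir
import Pool.Agent.H14.HR.Idx
import Pool.Agent.H14.HR.Grp

/-! HR12: the theorem in the linear model. -/

set_option autoImplicit false

namespace Pool.Agent.H14.HR

open NormedSpace Module Pool.Agent.H14.HP

variable {E : Type*} [NormedAddCommGroup E] [NormedSpace ℝ E]
  {Γ : Type*} [Group Γ] {π : Γ →* (E →L[ℝ] E)} {τ p : E →L[ℝ] ℝ}

theorem final_K [FiniteDimensional ℝ E] (C : Cfg π τ p) (ht : ∃ x, τ x = 1) :
    ∃ G : Subgroup Γ, G.FiniteIndex ∧ (derivedSeries G 2).map G.subtype ≤ KK π p := by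
  obtain ⟨G, h1, h2⟩ := fin_idx2 C (fin_dir C ht)
  exact ⟨G, h1, ds_le C G h2⟩

theorem final_iff [FiniteDimensional ℝ E] (C : Cfg π τ p) (ht : ∃ x, τ x = 1) :
    VS Γ ↔ VS (St π p) := by
  constructor
  · rintro ⟨H, h1, h2⟩
    have h3 : VS (⊤ : Subgroup Γ) := by
      have e : H.map (Subgroup.topEquiv (G := Γ)).symm.toMonoidHom =
          H.subgroupOf ⊤ := by
        ext x
        simp [Subgroup.mem_subgroupOf, Subgroup.mem_map]
        constructor
        · rintro ⟨y, hy, rfl⟩
          exact hy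
        · intro hx
          exact ⟨x, hx, rfl⟩
      refine ⟨H.subgroupOf ⊤, inferInstance, ?_⟩
      exact Group.isSolvable_of_isSolvable_injective
        (f := (Subgroup.subgroupOfEquivOfLe (le_top : H ≤ ⊤)).toMonoidHom)
        (Subgroup.subgroupOfEquivOfLe (le_top : H ≤ ⊤)).injective
    exact sub_vs le_top h3
  · intro h
    obtain ⟨G, h1, h2⟩ := final_K C ht
    exact ext_vs (KK π p) (sub_vs (KK_le π p) h) (quot_vs (KK π p) G 2 h2)

end Pool.Agent.H14.HR
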