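import Mathlib
import Pool.Agent.H71.AU.Main
import Pool.Agent.H14.HR.Final

/-! HR13: from the affine group to the linear model. -/

set_option autoImplicit false

namespace Pool.Agent.H14.HR

open NormedSpace Module Pool.Agent.H71.AU Pool.Agent.H14.HP

/-- The linear model of the action of a group of affine maps. -/
noncomputable def aff_rep {V : Type*} [NormedAddCommGroup V] [NormedSpace ℝ V]
    [FiniteDimensional ℝ V] (Γ : Subgroup (V ≃ᵃ[ℝ] V)) : Γ →* ((V × ℝ) →L[ℝ] (V × ℝ)) where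
  toFun g := LinearMap.toContinuousLinearMap (main_hat (g : V ≃ᵃ[ℝ] V))
  map_one' := by
    apply ContinuousLinearMap.ext
    intro x
    change main_hat ((1 : Γ) : V ≃ᵃ[ℝ] V) x = x
    rw [Subgroup.coe_one, map_one]
    rfl
  map_mul' g h := by
    apply ContinuousLinearMap.ext
    intro x
    change main_hat ((g * h : Γ) : V ≃ᵃ[ℝ] V) x =
      main_hat (g : V ≃ᵃ[ℝ] V) (main_hat (h : V ≃ᵃ[ℝ] V) x)
    rw [Subgroup.coe_mul, map_mul]
    rfl

theorem aff_rep_apply {V : Type*} [NormedAddCommGroup V] [NormedSpace ℝ V]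
    [FiniteDimensional ℝ V] (Γ : Subgroup (V ≃ᵃ[ℝ] V)) (g : Γ) (x : V × ℝ) :
    aff_rep Γ g x = main_hat (g : V ≃ᵃ[ℝ] V) x := rfl

theorem aff_sys (n : ℕ) (Γ : Subgroup ((Fin n → ℝ) ≃ᵃ[ℝ] (Fin n → ℝ)))
    (hprop : ∀ K : Set (Fin n → ℝ), IsCompact K →
      {g : (Fin n → ℝ) ≃ᵃ[ℝ] (Fin n → ℝ) | g ∈ Γ ∧ (⇑g '' K ∩ K).Nonempty}.Finite) :
    Sys (aff_rep Γ) (ContinuousLinearMap.snd ℝ (Fin n → ℝ) ℝ) := by
  refine ⟨fun g y => rfl, fun R => ?_⟩
  have h1 := hprop (Metric.closedBall 0 R) (isCompact_closedBall _ _)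
  have h2 := h1.preimage
    (f := (Subtype.val : Γ → (Fin n → ℝ) ≃ᵃ[ℝ] (Fin n → ℝ)))
    (Subtype.val_injective.injOn)
  refine h2.subset ?_
  rintro g ⟨x, hx1, hxR, hgR⟩
  have hx1' : x.2 = 1 := hx1
  have e1 : aff_rep Γ g x =
      ((g : (Fin n → ℝ) ≃ᵃ[ℝ] (Fin n → ℝ)) x.1, 1) := main_hat_one _ _ hx1'
  refine ⟨g.2, (g : (Fin n → ℝ) ≃ᵃ[ℝ] (Fin n → ℝ)) x.1, ⟨x.1, ?_, rfl⟩, ?_⟩
  · rw [mem_closedBall_zero_iff]
    exact (norm_fst_le _).trans hxR
  · rw [mem_closedBall_zero_iff]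
    rw [e1] at hgR
    exact (norm_fst_le _).trans hgR

/-- The linear functional on `V × ℝ` of an affine hyperplane. -/
noncomputable def aff_fun {V : Type*} [NormedAddCommGroup V] [NormedSpace ℝ V]
    (l : V →L[ℝ] ℝ) (x₀ : V) : (V × ℝ) →L[ℝ] ℝ :=
  l.comp (ContinuousLinearMap.fst ℝ V ℝ) - (l x₀) • ContinuousLinearMap.snd ℝ V ℝ

theorem aff_fun_apply {V : Type*} [NormedAddCommGroup V] [NormedSpace ℝ V]
    (l : V →L[ℝ] ℝ) (x₀ : V) (y : V × ℝ) : aff_fun l x₀ y = l y.1 - l x₀ * y.2 := rfl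

/-- The hyperplane version of the theorem. -/
theorem main_hyp (n : ℕ) (Γ : Subgroup ((Fin n → ℝ) ≃ᵃ[ℝ] (Fin n → ℝ)))
    (hprop : ∀ K : Set (Fin n → ℝ), IsCompact K →
      {g : (Fin n → ℝ) ≃ᵃ[ℝ] (Fin n → ℝ) | g ∈ Γ ∧ (⇑g '' K ∩ K).Nonempty}.Finite)
    (F : AffineSubspace ℝ (Fin n → ℝ)) (x₀ : Fin n → ℝ) (hx₀ : x₀ ∈ F)
    (hF : finrank ℝ F.direction + 1 = n) (St' : Subgroup Γ)
    (hSt : ∀ g : Γ, g ∈ St' ↔
      ∀ x, (g : (Fin n → ℝ) ≃ᵃ[ℝ] (Fin n → ℝ)) x ∈ F ↔ x ∈ F)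
    (K₀ : Set (Fin n → ℝ)) (hK₀ : IsCompact K₀)
    (hc : ∀ x ∈ F, ∃ g ∈ St', (g : (Fin n → ℝ) ≃ᵃ[ℝ] (Fin n → ℝ)) x ∈ K₀) :
    (∃ K : Subgroup Γ, K.Normal ∧ K ≤ St' ∧
      ∃ G : Subgroup Γ, G.FiniteIndex ∧ (derivedSeries G 2).map G.subtype ≤ K) ∧
    (VS Γ ↔ VS St') := by
  classical
  have S := aff_sys n Γ hprop
  -- the functional
  have hlt : F.direction < ⊤ := by
    rw [lt_top_iff_ne_top]
    intro h
    rw [h, finrank_top] at hF
    simp at hF
  obtain ⟨l₀, hl₀, hle⟩ := Submodule.exists_le_ker_of_lt_top F.direction hlt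
  have hker : LinearMap.ker l₀ = F.direction := by
    symm
    apply Submodule.eq_of_le_of_finrank_le hle
    have h1 := LinearMap.finrank_range_add_finrank_ker l₀
    have h2 : 0 < finrank ℝ (LinearMap.range l₀) := by
      rw [Module.finrank_pos_iff]
      rw [Submodule.nontrivial_iff_ne_bot]
      intro h
      exact hl₀ (LinearMap.range_eq_bot.1 h)
    have h3 : finrank ℝ (Fin n → ℝ) = n := by simp
    omega
  set l : (Fin n → ℝ) →L[ℝ] ℝ := LinearMap.toContinuousLinearMap l₀ with hl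
  have hlW : ∀ w, l w = 0 ↔ w ∈ F.direction := by
    intro w
    rw [← hker]
    exact Iff.rfl
  obtain ⟨w₀, hw₀⟩ : ∃ w, l w ≠ 0 := by
    by_contra hcon
    push Not at hcon
    exact hl₀ (LinearMap.ext hcon)
  set p := aff_fun l x₀ with hp
  have hpF : ∀ x : Fin n → ℝ, p (x, 1) = 0 ↔ x ∈ F := by
    intro x
    rw [hp, aff_fun_apply]
    have h1 : l x - l x₀ * 1 = l (x - x₀) := by rw [map_sub, mul_one]
    rw [h1, hlW]
    constructor
    · intro h
      have h3 := AffineSubspace.vadd_mem_of_mem_direction h hx₀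
      simpa using h3
    · intro h
      exact AffineSubspace.vsub_mem_direction h hx₀
  have hrep : ∀ (g : Γ) (x : Fin n → ℝ), aff_rep Γ g (x, 1) =
      ((g : (Fin n → ℝ) ≃ᵃ[ℝ] (Fin n → ℝ)) x, 1) := fun g x => main_hat_one _ _ rfl
  set u : (Fin n → ℝ) × ℝ := ((l w₀)⁻¹ • w₀, 0) with hu
  have hpu : p u = 1 := by
    rw [hp, aff_fun_apply, hu]
    simp [inv_mul_cancel₀ hw₀]
  have hStp : St' = St (aff_rep Γ) p := by
    ext g
    rw [hSt, mem_St]
    constructor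
    · intro hg
      have hvan : ∀ y, p y = 0 → p (aff_rep Γ g y) = 0 := by
        have h1 : ∀ x : Fin n → ℝ, x ∈ F → p (aff_rep Γ g (x, 1)) = 0 := by
          intro x hx
          rw [hrep, hpF]
          exact (hg x).2 hx
        rintro ⟨z, t⟩ hy
        by_cases ht : t = 0
        · subst ht
          have h2 : z ∈ F.direction := by
            rw [← hlW]
            rw [hp, aff_fun_apply] at hy
            simpa using hy
          have h3 : z + x₀ ∈ F := AffineSubspace.vadd_mem_of_mem_direction h2 hx₀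
          have h4 : ((z, 0) : (Fin n → ℝ) × ℝ) = (z + x₀, 1) - (x₀, 1) := by simp
          rw [h4, map_sub, map_sub, h1 _ h3, h1 _ hx₀, sub_self]
        · have h2 : ((z, t) : (Fin n → ℝ) × ℝ) = t • (t⁻¹ • z, 1) := by
            ext
            · simp [smul_smul, mul_inv_cancel₀ ht]
            · simp
          have h3 : t⁻¹ • z ∈ F := by
            rw [← hpF]
            have h4 := hy
            rw [h2, map_smul, smul_eq_mul] at h4
            exact (mul_eq_zero.1 h4).resolve_left ht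
          rw [h2, map_smul, map_smul, h1 _ h3, smul_zero]
      have hmu : ∀ y, p (aff_rep Γ g y) = p (aff_rep Γ g u) * p y := by
        intro y
        have h1 := hvan (y - p y • u) (by rw [map_sub, map_smul, hpu, smul_eq_mul]; ring)
        rw [map_sub, map_smul, map_sub, map_smul, smul_eq_mul, sub_eq_zero] at h1
        rw [h1, mul_comm]
      refine ⟨_, ?_, hmu⟩
      intro h0
      have h1 := hmu (aff_rep Γ g⁻¹ u)
      rw [pi_inv', hpu, h0, zero_mul] at h1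
      exact one_ne_zero h1
    · rintro ⟨μ, hμ, h⟩ x
      rw [← hpF, ← hrep, h, ← hpF]
      constructor
      · intro h1
        exact (mul_eq_zero.1 h1).resolve_left hμ
      · intro h1
        rw [h1, mul_zero]
  have C : Cfg (aff_rep Γ) (ContinuousLinearMap.snd ℝ (Fin n → ℝ) ℝ) p := by
    refine ⟨S, ?_, ?_⟩
    · intro s
      refine ⟨u, ?_⟩
      rw [hpu]
      have : ContinuousLinearMap.snd ℝ (Fin n → ℝ) ℝ u = 0 := rfl
      rw [this, mul_zero]
      exact one_ne_zero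
    · obtain ⟨R, hR⟩ := hK₀.isBounded.exists_norm_le
      refine ⟨max R 1, ?_⟩
      rintro ⟨x, t⟩ hy ht
      have ht' : t = 1 := ht
      subst ht'
      have hx : x ∈ F := (hpF x).1 hy
      obtain ⟨g, hg, hgx⟩ := hc x hx
      refine ⟨g, hStp ▸ hg, ?_⟩
      rw [hrep, Prod.norm_def]
      refine max_le ((hR _ hgx).trans (le_max_left _ _)) ?_
      simp
  have ht : ∃ x, ContinuousLinearMap.snd ℝ (Fin n → ℝ) ℝ x = 1 := ⟨(0, 1), rfl⟩
  rw [hStp]
  refine ⟨⟨KK (aff_rep Γ) p, KK_normal _ _, KK_le _ _, final_K C ht⟩, final_iff C ht⟩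

end Pool.Agent.H14.HR
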