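import Mathlib
import Pool.Agent.H14.HR.Aff
import Pool.Agent.H14.HR.Ab
import Pool.Agent.H14.HP.HypEx

/-! HR14: the corollary for a free abelian subgroup of corank one. -/

set_option autoImplicit false

namespace Pool.Agent.H14.HR

open NormedSpace Module Pool.Agent.H71.AU Pool.Agent.H14.HP

theorem aff_rep_pow {V : Type*} [NormedAddCommGroup V] [NormedSpace ℝ V]
    [FiniteDimensional ℝ V] (Γ : Subgroup (V ≃ᵃ[ℝ] V)) (g : Γ) (m : ℕ) (x : V × ℝ) :
    ((aff_rep Γ g - 1) ^ m) x = ((main_hat (g : V ≃ᵃ[ℝ] V) - 1) ^ m) x := by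
  induction m generalizing x with
  | zero => simp
  | succ m ih =>
    rw [pow_succ, pow_succ]
    have h1 : ((aff_rep Γ g - 1) ^ m * (aff_rep Γ g - 1)) x =
      ((aff_rep Γ g - 1) ^ m) ((aff_rep Γ g - 1) x) := rfl
    rw [h1, ih]
    rfl

theorem aff_hat_pow {V : Type*} [AddCommGroup V] [Module ℝ V] (g : V ≃ᵃ[ℝ] V) (m : ℕ) (v : V) :
    ((main_hat g - 1) ^ m) ((v, 0) : V × ℝ) = ((((g.linear : V →ₗ[ℝ] V) - 1) ^ m) v, 0) := by
  induction m generalizing v with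
  | zero => simp
  | succ m ih =>
    rw [pow_succ, pow_succ]
    have h1 : ((main_hat g - 1) ^ m * (main_hat g - 1)) ((v, 0) : V × ℝ) =
      ((main_hat g - 1) ^ m) ((main_hat g - 1) (v, 0)) := rfl
    have h2 : (main_hat g - 1) ((v, 0) : V × ℝ) = (((g.linear : V →ₗ[ℝ] V) - 1) v, 0) := by
      change main_hat g ((v, 0) : V × ℝ) - (v, 0) = _
      rw [main_hat_apply]
      simp
    rw [h1, h2, ih]
    rfl

/-- The subspace over an affine subspace. -/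
def aff_cone {V : Type*} [AddCommGroup V] [Module ℝ V] (W : Submodule ℝ V) (x₀ : V) :
    Submodule ℝ (V × ℝ) where
  carrier := {y | y.1 - y.2 • x₀ ∈ W}
  add_mem' := by
    intro y z hy hz
    have h : (y + z).1 - (y + z).2 • x₀ = (y.1 - y.2 • x₀) + (z.1 - z.2 • x₀) := by
      rw [Prod.fst_add, Prod.snd_add, add_smul]
      abel
    change (y + z).1 - (y + z).2 • x₀ ∈ W
    rw [h]
    exact W.add_mem hy hz
  zero_mem' := by simp
  smul_mem' := by
    intro c y hy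
    have h : (c • y).1 - (c • y).2 • x₀ = c • (y.1 - y.2 • x₀) := by
      rw [Prod.smul_fst, Prod.smul_snd, smul_sub, smul_eq_mul, mul_smul]
    change (c • y).1 - (c • y).2 • x₀ ∈ W
    rw [h]
    exact W.smul_mem c hy

section

variable {E : Type*} [NormedAddCommGroup E] [NormedSpace ℝ E]
  {Γ : Type*} [Group Γ] {π : Γ →* (E →L[ℝ] E)} {τ p : E →L[ℝ] ℝ}

/-- The corollary for a free abelian subgroup of corank one. -/
theorem final_ab [FiniteDimensional ℝ E] [CompleteSpace E] (S : Sys π τ) (A : Subgroup Γ)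
    (hA : ∀ a ∈ A, ∀ b ∈ A, a * b = b * a)
    (k : ℕ) (f : (Fin k → ℤ) →+ Additive A) (hf : Function.Injective f)
    (hE : finrank ℝ E = k + 2)
    (M : Submodule ℝ E) (hM : ∀ a ∈ A, ∀ y ∈ M, π a y ∈ M) (hne : M ≠ ⊤)
    (x : E) (hx : x ∈ M) (hτx : τ x = 1) : VS Γ := by
  obtain ⟨φ, h0, hp, HA⟩ := hyp_exists S A hA k f hf hE M hM hne x hx hτx
  exact (final_iff (hyp_coc S HA hτx hp h0) ⟨x, hτx⟩).2 (st_vs S HA hτx hp)

end

theorem main_aff (n : ℕ) (Γ : Subgroup ((Fin (n + 1) → ℝ) ≃ᵃ[ℝ] (Fin (n + 1) → ℝ)))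
    (hprop : ∀ K : Set (Fin (n + 1) → ℝ), IsCompact K →
      {g : (Fin (n + 1) → ℝ) ≃ᵃ[ℝ] (Fin (n + 1) → ℝ) | g ∈ Γ ∧ (⇑g '' K ∩ K).Nonempty}.Finite)
    (f : Multiplicative (Fin n → ℤ) →* Γ) (hf : Function.Injective f)
    (h : (∃ F : AffineSubspace ℝ (Fin (n + 1) → ℝ), F ≠ ⊥ ∧ F ≠ ⊤ ∧
        ∀ z, ∀ x ∈ F, (f z : (Fin (n + 1) → ℝ) ≃ᵃ[ℝ] (Fin (n + 1) → ℝ)) x ∈ F) ∨
      ∃ z, ¬ IsNilpotent
        (((f z : (Fin (n + 1) → ℝ) ≃ᵃ[ℝ] (Fin (n + 1) → ℝ)).linear :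
          (Fin (n + 1) → ℝ) →ₗ[ℝ] (Fin (n + 1) → ℝ)) - 1)) :
    VS Γ := by
  classical
  have S := aff_sys (n + 1) Γ hprop
  -- the abelian subgroup
  have hA : ∀ a ∈ f.range, ∀ b ∈ f.range, a * b = b * a := by
    rintro _ ⟨y, rfl⟩ _ ⟨z, rfl⟩
    rw [← map_mul, ← map_mul, mul_comm]
  have hfb : Function.Bijective (MonoidHom.toAdditiveRight f.rangeRestrict) := by
    refine ⟨fun x y hxy => ?_, fun y => ?_⟩
    · exact hf (congrArg (fun u : f.range => (u : Γ)) hxy)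
    · obtain ⟨x, hx⟩ := f.rangeRestrict_surjective (Additive.toMul y)
      exact ⟨x, hx⟩
  have hfin : finrank ℝ ((Fin (n + 1) → ℝ) × ℝ) = n + 2 := by simp
  have key : ∃ M : Submodule ℝ ((Fin (n + 1) → ℝ) × ℝ),
      (∀ a ∈ f.range, ∀ y ∈ M, aff_rep Γ a y ∈ M) ∧ M ≠ ⊤ ∧ ∃ x ∈ M, x.2 = 1 := by
    rcases h with ⟨F, hF1, hF2, hF3⟩ | ⟨z, hz⟩
    · obtain ⟨x₀, hx₀⟩ := (AffineSubspace.nonempty_iff_ne_bot F).2 hF1
      have hx₀ : x₀ ∈ F := hx₀
      refine ⟨aff_cone F.direction x₀, ?_, ?_, ⟨(x₀, 1), ?_, rfl⟩⟩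
      · rintro _ ⟨z, rfl⟩ y hy
        set g : (Fin (n + 1) → ℝ) ≃ᵃ[ℝ] (Fin (n + 1) → ℝ) :=
          (f z : (Fin (n + 1) → ℝ) ≃ᵃ[ℝ] (Fin (n + 1) → ℝ)) with hg
        have hgx : g x₀ ∈ F := hF3 z x₀ hx₀
        have hg0 : g x₀ = g.linear x₀ + g 0 := by
          have := g.map_vadd 0 x₀
          simpa using this
        have hlin : ∀ w ∈ F.direction, g.linear w ∈ F.direction := by
          intro w hw
          have h1 : w +ᵥ x₀ ∈ F := AffineSubspace.vadd_mem_of_mem_direction hw hx₀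
          have h2 : g (w +ᵥ x₀) ∈ F := hF3 z _ h1
          rw [g.map_vadd] at h2
          have h3 := AffineSubspace.vsub_mem_direction h2 hgx
          simpa using h3
        have hd : g x₀ - x₀ ∈ F.direction := AffineSubspace.vsub_mem_direction hgx hx₀
        have hy' : y.1 - y.2 • x₀ ∈ F.direction := hy
        change (g.linear y.1 + y.2 • g 0) - y.2 • x₀ ∈ F.direction
        have e : (g.linear y.1 + y.2 • g 0) - y.2 • x₀ =
            g.linear (y.1 - y.2 • x₀) + y.2 • (g x₀ - x₀) := by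
          rw [hg0, map_sub, map_smul, smul_sub, smul_add]
          abel
        rw [e]
        exact Submodule.add_mem _ (hlin _ hy') (Submodule.smul_mem _ _ hd)
      · intro htop
        apply hF2
        rw [eq_top_iff]
        intro x _
        have h1 : ((x, 1) : (Fin (n + 1) → ℝ) × ℝ) ∈ aff_cone F.direction x₀ := by
          rw [htop]
          trivial
        have h2 : x - (1 : ℝ) • x₀ ∈ F.direction := h1
        rw [one_smul] at h2
        have h3 := AffineSubspace.vadd_mem_of_mem_direction h2 hx₀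
        simpa using h3
      · change x₀ - (1 : ℝ) • x₀ ∈ F.direction
        rw [one_smul, sub_self]
        exact Submodule.zero_mem _
    · set N : ℕ := finrank ℝ ((Fin (n + 1) → ℝ) × ℝ) + 1 with hN
      have hcom : ∀ a ∈ f.range, ∀ b ∈ f.range,
          Commute (main_hat (a : (Fin (n + 1) → ℝ) ≃ᵃ[ℝ] (Fin (n + 1) → ℝ)))
            (main_hat (b : (Fin (n + 1) → ℝ) ≃ᵃ[ℝ] (Fin (n + 1) → ℝ))) := by
        intro a ha b hb
        change main_hat _ * main_hat _ = main_hat _ * main_hat _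
        rw [← map_mul, ← map_mul, ← Subgroup.coe_mul, ← Subgroup.coe_mul, hA a ha b hb]
      obtain ⟨x₀, hx₀, hx₀A⟩ := fit
        ((fun a : Γ => main_hat (a : (Fin (n + 1) → ℝ) ≃ᵃ[ℝ] (Fin (n + 1) → ℝ))) ''
          (f.range : Set Γ))
        (by
          rintro _ ⟨a, ha, rfl⟩ _ ⟨b, hb, rfl⟩
          exact hcom a ha b hb)
        (LinearMap.snd ℝ (Fin (n + 1) → ℝ) ℝ)
        (by
          rintro _ ⟨a, ha, rfl⟩ y
          rfl)
        (by
          intro h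
          have := congrArg (fun φ : ((Fin (n + 1) → ℝ) × ℝ) →ₗ[ℝ] ℝ => φ (0, 1)) h
          simp at this)
      let M : Submodule ℝ ((Fin (n + 1) → ℝ) × ℝ) :=
        ⨅ a : f.range, LinearMap.ker
          ((main_hat ((a : Γ) : (Fin (n + 1) → ℝ) ≃ᵃ[ℝ] (Fin (n + 1) → ℝ)) - 1) ^ N)
      have hmem : ∀ y, y ∈ M ↔ ∀ a ∈ f.range,
          ((main_hat ((a : Γ) : (Fin (n + 1) → ℝ) ≃ᵃ[ℝ] (Fin (n + 1) → ℝ)) - 1) ^ N) y = 0 := by
        intro y
        simp only [M, Submodule.mem_iInf, LinearMap.mem_ker, Subtype.forall]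
      refine ⟨M, ?_, ?_, ⟨x₀, ?_, hx₀⟩⟩
      · intro a ha y hy
        rw [hmem] at hy ⊢
        intro b hb
        have hc := ((hcom b hb a ha).sub_left (Commute.one_left _)).pow_left N
        have h1 := congrArg (fun φ : Module.End ℝ ((Fin (n + 1) → ℝ) × ℝ) => φ y) hc.eq
        change ((main_hat ((b : Γ) : (Fin (n + 1) → ℝ) ≃ᵃ[ℝ] (Fin (n + 1) → ℝ)) - 1) ^ N)
          (main_hat ((a : Γ) : (Fin (n + 1) → ℝ) ≃ᵃ[ℝ] (Fin (n + 1) → ℝ)) y) = 0
        have h2 : ((main_hat ((b : Γ) : (Fin (n + 1) → ℝ) ≃ᵃ[ℝ] (Fin (n + 1) → ℝ)) - 1) ^ N)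
          (main_hat ((a : Γ) : (Fin (n + 1) → ℝ) ≃ᵃ[ℝ] (Fin (n + 1) → ℝ)) y) =
          main_hat ((a : Γ) : (Fin (n + 1) → ℝ) ≃ᵃ[ℝ] (Fin (n + 1) → ℝ))
          (((main_hat ((b : Γ) : (Fin (n + 1) → ℝ) ≃ᵃ[ℝ] (Fin (n + 1) → ℝ)) - 1) ^ N) y) := h1
        rw [h2, hy b hb, map_zero]
      · intro htop
        apply hz
        refine ⟨N, ?_⟩
        apply LinearMap.ext
        intro v
        have h1 : ((v, 0) : (Fin (n + 1) → ℝ) × ℝ) ∈ M := by
          rw [htop]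
          trivial
        have h2 := (hmem _).1 h1 (f z) ⟨z, rfl⟩
        rw [aff_hat_pow] at h2
        exact congrArg Prod.fst h2
      · rw [hmem]
        intro a ha
        exact hx₀A _ ⟨a, ha, rfl⟩
  obtain ⟨M, hM1, hM2, x, hx, hx1⟩ := key
  exact final_ab S f.range hA n (MonoidHom.toAdditiveRight f.rangeRestrict) hfb.1 hfin M hM1 hM2
    x hx hx1

end Pool.Agent.H14.HR
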